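import Pool.Agent.W304.HL.Faces

/-!
The face lattice of a polygon, its order polytope, and the description by inequalities.
-/

namespace Q151.CrownF

open Finset Pool.Agent.W304.HL

/-- The faces of a convex polygon with `n` vertices: the empty face, the vertices, the edges
(edge `i` joins the vertices `i` and `i + 1`, indices modulo `n`) and the polygon itself. -/
inductive Face (n : ℕ) : Type
  | bot : Face n
  | vert : ZMod n → Face n
  | edge : ZMod n → Face n
  | top : Face n

/-- Inclusion of faces: an edge contains exactly its two endpoints. -/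
def Face.le {n : ℕ} : Face n → Face n → Prop
  | .bot, _ => True
  | .vert _, .bot => False
  | .vert i, .vert j => i = j
  | .vert i, .edge j => i = j ∨ i = j + 1
  | .vert _, .top => True
  | .edge _, .bot => False
  | .edge _, .vert _ => False
  | .edge i, .edge j => i = j
  | .edge _, .top => True
  | .top, .bot => False
  | .top, .vert _ => False
  | .top, .edge _ => False
  | .top, .top => True

/-- The face lattice of the `n`-gon. -/
instance (n : ℕ) : PartialOrder (Face n) where
  le := Face.le
  le_refl := by
    intro a; cases a <;> simp [Face.le]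
  le_trans := by
    intro a b c hab hbc
    cases a <;> cases b <;> cases c <;> simp_all [Face.le]
  le_antisymm := by
    intro a b hab hba
    cases a <;> cases b <;> simp_all [Face.le]

/-- equivalence with a sum type -/
def faceEquiv (n : ℕ) : Face n ≃ (Unit ⊕ ZMod n) ⊕ (ZMod n ⊕ Unit) where
  toFun
    | .bot => Sum.inl (Sum.inl ())
    | .vert i => Sum.inl (Sum.inr i)
    | .edge i => Sum.inr (Sum.inl i)
    | .top => Sum.inr (Sum.inr ())
  invFun
    | Sum.inl (Sum.inl _) => .bot
    | Sum.inl (Sum.inr i) => .vert i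
    | Sum.inr (Sum.inl i) => .edge i
    | Sum.inr (Sum.inr _) => .top
  left_inv := by intro a; cases a <;> rfl
  right_inv := by rintro ((_ | _) | (_ | _)) <;> rfl

instance (n : ℕ) [NeZero n] : Fintype (Face n) := Fintype.ofEquiv _ (faceEquiv n).symm

instance (n : ℕ) : DecidableEq (Face n) := fun a b =>
  decidable_of_iff (faceEquiv n a = faceEquiv n b) (faceEquiv n).injective.eq_iff

/-- The order polytope of a finite poset. -/
def orderPolytope (Q : Type*) [PartialOrder Q] : Set (Q → ℝ) :=
  {x | (∀ a, 0 ≤ x a ∧ x a ≤ 1) ∧ ∀ a b, a ≤ b → x a ≤ x b}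

/-- the facet inequalities -/
inductive Ineq (n : ℕ) : Type
  | lo : Ineq n
  | Z : ZMod n → Ineq n
  | A : ZMod n → Ineq n
  | B : ZMod n → Ineq n
  | C : ZMod n → Ineq n
  | hi : Ineq n

def ineqEquiv (n : ℕ) : Ineq n ≃ (Unit ⊕ Unit) ⊕ ((ZMod n ⊕ ZMod n) ⊕ (ZMod n ⊕ ZMod n)) where
  toFun
    | .lo => Sum.inl (Sum.inl ())
    | .hi => Sum.inl (Sum.inr ())
    | .Z i => Sum.inr (Sum.inl (Sum.inl i))
    | .A i => Sum.inr (Sum.inl (Sum.inr i))
    | .B i => Sum.inr (Sum.inr (Sum.inl i))
    | .C i => Sum.inr (Sum.inr (Sum.inr i))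
  invFun
    | Sum.inl (Sum.inl _) => .lo
    | Sum.inl (Sum.inr _) => .hi
    | Sum.inr (Sum.inl (Sum.inl i)) => .Z i
    | Sum.inr (Sum.inl (Sum.inr i)) => .A i
    | Sum.inr (Sum.inr (Sum.inl i)) => .B i
    | Sum.inr (Sum.inr (Sum.inr i)) => .C i
  left_inv := by intro a; cases a <;> rfl
  right_inv := by rintro ((_ | _) | ((_ | _) | (_ | _))) <;> rfl

instance (n : ℕ) [NeZero n] : Fintype (Ineq n) := Fintype.ofEquiv _ (ineqEquiv n).symm

instance (n : ℕ) : DecidableEq (Ineq n) := fun a b =>
  decidable_of_iff (ineqEquiv n a = ineqEquiv n b) (ineqEquiv n).injective.eq_iff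

/-- the functionals -/
def cf (n : ℕ) : Ineq n → (Face n → ℝ) →ₗ[ℝ] ℝ
  | .lo => -LinearMap.proj .bot
  | .Z i => LinearMap.proj .bot - LinearMap.proj (.vert i)
  | .A i => LinearMap.proj (.vert i) - LinearMap.proj (.edge i)
  | .B i => LinearMap.proj (.vert (i + 1)) - LinearMap.proj (.edge i)
  | .C i => LinearMap.proj (.edge i) - LinearMap.proj .top
  | .hi => LinearMap.proj .top

/-- the right sides -/
def df (n : ℕ) : Ineq n → ℝ
  | .hi => 1
  | _ => 0

theorem mem_poly {n : ℕ} [NeZero n] (x : Face n → ℝ) : x ∈ poly (cf n) (df n) ↔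
    0 ≤ x .bot ∧ (∀ i, x .bot ≤ x (.vert i)) ∧ (∀ i, x (.vert i) ≤ x (.edge i)) ∧
    (∀ i, x (.vert (i + 1)) ≤ x (.edge i)) ∧ (∀ i, x (.edge i) ≤ x .top) ∧ x .top ≤ 1 := by
  constructor
  · intro h
    refine ⟨?_, fun i => ?_, fun i => ?_, fun i => ?_, fun i => ?_, ?_⟩
    · have := h .lo; simpa [cf, df] using this
    · have := h (.Z i); simpa [cf, df] using this
    · have := h (.A i); simpa [cf, df] using this
    · have := h (.B i); simpa [cf, df] using this
    · have := h (.C i); simpa [cf, df] using this
    · have := h .hi; simpa [cf, df] using this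
  · rintro ⟨h1, h2, h3, h4, h5, h6⟩ j
    cases j with
    | lo => simpa [cf, df] using h1
    | Z i => simpa [cf, df] using h2 i
    | A i => simpa [cf, df] using h3 i
    | B i => simpa [cf, df] using h4 i
    | C i => simpa [cf, df] using h5 i
    | hi => simpa [cf, df] using h6

theorem orderPolytope_eq {n : ℕ} [NeZero n] : orderPolytope (Face n) = poly (cf n) (df n) := by
  ext x
  rw [mem_poly]
  constructor
  · rintro ⟨h1, h2⟩
    refine ⟨(h1 _).1, fun i => h2 _ _ ?_, fun i => h2 _ _ ?_, fun i => h2 _ _ ?_,
      fun i => h2 _ _ ?_, (h1 _).2⟩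
    · show Face.le _ _; simp [Face.le]
    · show Face.le _ _; simp [Face.le]
    · show Face.le _ _; simp [Face.le]
    · show Face.le _ _; simp [Face.le]
  · rintro ⟨h1, h2, h3, h4, h5, h6⟩
    have hlo : ∀ a, x .bot ≤ x a := by
      intro a
      cases a with
      | bot => exact le_rfl
      | vert i => exact h2 i
      | edge i => exact (h2 i).trans (h3 i)
      | top => exact ((h2 0).trans (h3 0)).trans (h5 0)
    have hhi : ∀ a, x a ≤ x .top := by
      intro a
      cases a with
      | bot => exact hlo _
      | vert i => exact (h3 i).trans (h5 i)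
      | edge i => exact h5 i
      | top => exact le_rfl
    refine ⟨fun a => ⟨h1.trans (hlo a), (hhi a).trans h6⟩, ?_⟩
    intro a b hab
    have hab' : Face.le a b := hab
    cases a with
    | bot => exact hlo b
    | vert i =>
      cases b with
      | bot => exact absurd hab' (by simp [Face.le])
      | vert j => rw [show i = j from hab']
      | edge j =>
        rcases hab' with h | h
        · rw [h]; exact h3 j
        · rw [h]; exact h4 j
      | top => exact hhi _
    | edge i =>
      cases b with
      | bot => exact absurd hab' (by simp [Face.le])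
      | vert j => exact absurd hab' (by simp [Face.le])
      | edge j => rw [show i = j from hab']
      | top => exact hhi _
    | top =>
      cases b with
      | bot => exact absurd hab' (by simp [Face.le])
      | vert j => exact absurd hab' (by simp [Face.le])
      | edge j => exact absurd hab' (by simp [Face.le])
      | top => exact le_rfl

theorem mem_tight {n : ℕ} [NeZero n] (x : Face n → ℝ) :
    (Ineq.lo ∈ tight (cf n) (df n) x ↔ x .bot = 0) ∧
    (∀ i, Ineq.Z i ∈ tight (cf n) (df n) x ↔ x (.vert i) = x .bot) ∧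
    (∀ i, Ineq.A i ∈ tight (cf n) (df n) x ↔ x (.vert i) = x (.edge i)) ∧
    (∀ i, Ineq.B i ∈ tight (cf n) (df n) x ↔ x (.vert (i + 1)) = x (.edge i)) ∧
    (∀ i, Ineq.C i ∈ tight (cf n) (df n) x ↔ x (.edge i) = x .top) ∧
    (Ineq.hi ∈ tight (cf n) (df n) x ↔ x .top = 1) := by
  refine ⟨?_, fun i => ?_, fun i => ?_, fun i => ?_, fun i => ?_, ?_⟩ <;>
    simp only [tight, Set.mem_ofPred_eq, cf, df, LinearMap.neg_apply, LinearMap.proj_apply,
      LinearMap.sub_apply, sub_eq_zero, neg_eq_zero]
  exact eq_comm

theorem mem_dirn' {n : ℕ} [NeZero n] (T : Set (Ineq n)) (δ : Face n → ℝ) :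
    δ ∈ dirn (cf n) T ↔ (Ineq.lo ∈ T → δ .bot = 0) ∧ (∀ i, Ineq.Z i ∈ T → δ (.vert i) = δ .bot) ∧
    (∀ i, Ineq.A i ∈ T → δ (.vert i) = δ (.edge i)) ∧
    (∀ i, Ineq.B i ∈ T → δ (.vert (i + 1)) = δ (.edge i)) ∧
    (∀ i, Ineq.C i ∈ T → δ (.edge i) = δ .top) ∧ (Ineq.hi ∈ T → δ .top = 0) := by
  rw [mem_dirn]
  constructor
  · intro h
    refine ⟨fun hT => ?_, fun i hT => ?_, fun i hT => ?_, fun i hT => ?_, fun i hT => ?_,
      fun hT => ?_⟩
    · have := h _ hT; simpa [cf] using this
    · have := h _ hT; simp only [cf, LinearMap.sub_apply, LinearMap.proj_apply] at this; linarith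
    · have := h _ hT; simp only [cf, LinearMap.sub_apply, LinearMap.proj_apply] at this; linarith
    · have := h _ hT; simp only [cf, LinearMap.sub_apply, LinearMap.proj_apply] at this; linarith
    · have := h _ hT; simp only [cf, LinearMap.sub_apply, LinearMap.proj_apply] at this; linarith
    · have := h _ hT; simpa [cf] using this
  · rintro ⟨h1, h2, h3, h4, h5, h6⟩ j hj
    cases j with
    | lo => simp [cf, h1 hj]
    | Z i => simp [cf, h2 i hj]
    | A i => simp [cf, h3 i hj]
    | B i => simp [cf, h4 i hj]
    | C i => simp [cf, h5 i hj]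
    | hi => simp [cf, h6 hj]

/-- dimension from representatives -/
theorem finrank_rep {α : Type*} [Fintype α] (S : Submodule ℝ (α → ℝ)) (rep : α → Option α)
    (hid : ∀ a b, rep a = some b → rep b = some b)
    (hS : ∀ δ, δ ∈ S ↔ ∀ a, δ a = (rep a).elim 0 δ) :
    Module.finrank ℝ S = Nat.card {b // rep b = some b} := by
  classical
  let e : S ≃ₗ[ℝ] ({b // rep b = some b} → ℝ) :=
    { toFun := fun δ b => δ.1 b.1
      map_add' := fun _ _ => rfl
      map_smul' := fun _ _ => rfl
      invFun := fun g => ⟨fun a => (rep a).elim 0 fun b =>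
        if h : rep b = some b then g ⟨b, h⟩ else 0, by
          rw [hS]
          intro a
          cases h : rep a with
          | none => simp
          | some b =>
            have hb := hid a b h
            simp [hb]⟩
      left_inv := by
        intro δ
        apply Subtype.ext
        funext a
        have h1 := (hS δ.1).1 δ.2 a
        cases h : rep a with
        | none => rw [h] at h1; simpa [h] using h1.symm
        | some b =>
          have hb := hid a b h
          rw [h] at h1
          simp only [Option.elim_some] at h1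
          simp [h, hb, h1]
      right_inv := by
        intro g
        funext b
        obtain ⟨b, hb⟩ := b
        simp [hb] }
  rw [e.finrank_eq, Module.finrank_fintype_fun_eq_card, Nat.card_eq_fintype_card]

end Q151.CrownF
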