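import Mathlib

/-!
Closed walks and the trace of the transfer matrix.
-/

namespace Q151.CrownF

open Finset Polynomial

/-- Path weights are entries of matrix powers (any commutative semiring). -/
theorem walk_sum {R : Type*} [CommSemiring R] {ι : Type} [Fintype ι] [DecidableEq ι]
    (F : Matrix ι ι R) (m : ℕ) :
    ∀ h : ι → ι → R,
      ∑ v : Fin (m + 1) → ι, (∏ i : Fin m, F (v i.castSucc) (v i.succ)) * h (v 0) (v (Fin.last m)) =
        ∑ a, ∑ b, (F ^ m) a b * h a b := by
  induction m with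
  | zero =>
    intro h
    simp only [univ_eq_empty, prod_empty, one_mul, pow_zero]
    rw [← (Equiv.funUnique (Fin 1) ι).symm.sum_comp]
    simp [Matrix.one_apply, Fin.last]
  | succ m ih =>
    intro h
    rw [← (Fin.snocEquiv (fun _ : Fin (m + 2) => ι)).sum_comp, Fintype.sum_prod_type, sum_comm]
    have key : ∀ (v : Fin (m + 1) → ι), ∑ x : ι,
        (∏ i : Fin (m + 1), F ((Fin.snocEquiv (fun _ : Fin (m + 2) => ι)) (x, v) i.castSucc)
          ((Fin.snocEquiv (fun _ : Fin (m + 2) => ι)) (x, v) i.succ)) *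
          h ((Fin.snocEquiv (fun _ : Fin (m + 2) => ι)) (x, v) 0)
            ((Fin.snocEquiv (fun _ : Fin (m + 2) => ι)) (x, v) (Fin.last (m + 1))) =
        (∏ i : Fin m, F (v i.castSucc) (v i.succ)) *
          (∑ x, F (v (Fin.last m)) x * h (v 0) x) := by
      intro v
      rw [mul_sum]
      refine sum_congr rfl fun x _ => ?_
      rw [Fin.prod_univ_castSucc]
      simp only [Fin.snocEquiv, Equiv.coe_fn_mk]
      have h0 : (Fin.snoc v x : Fin (m + 2) → ι) 0 = v 0 := by
        have := Fin.snoc_castSucc (α := fun _ : Fin (m + 2) => ι) x v 0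
        simpa using this
      have h1 : ∀ i : Fin m, (Fin.snoc v x : Fin (m + 2) → ι) i.castSucc.succ = v i.succ := by
        intro i
        rw [← Fin.castSucc_succ]
        exact Fin.snoc_castSucc (α := fun _ : Fin (m + 2) => ι) x v i.succ
      have h2 : ∀ i : Fin (m + 1), (Fin.snoc v x : Fin (m + 2) → ι) i.castSucc = v i := by
        intro i
        exact Fin.snoc_castSucc (α := fun _ : Fin (m + 2) => ι) x v i
      have h3 : (Fin.snoc v x : Fin (m + 2) → ι) (Fin.last (m + 1)) = x :=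
        Fin.snoc_last (α := fun _ : Fin (m + 2) => ι) x v
      simp only [h0, h1, h2, h3, Fin.succ_last]
      ring
    rw [sum_congr rfl fun v _ => key v]
    rw [ih (fun a b => ∑ x, F b x * h a x)]
    refine sum_congr rfl fun a _ => ?_
    rw [pow_succ]
    simp only [Matrix.mul_apply, mul_sum, sum_mul]
    rw [sum_comm]
    refine sum_congr rfl fun x _ => sum_congr rfl fun b _ => ?_
    ring

theorem closed_walks {R : Type*} [CommSemiring R] {ι : Type} [Fintype ι] [DecidableEq ι]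
    (F : Matrix ι ι R) {n : ℕ} [NeZero n] :
    ∑ σ : ZMod n → ι, ∏ i, F (σ i) (σ (i + 1)) = Matrix.trace (F ^ n) := by
  obtain ⟨m, rfl⟩ : ∃ m, n = m + 1 := ⟨n - 1, by have := NeZero.ne n; omega⟩
  have e : ∀ v : Fin (m + 1) → ι, ∏ i, F (v i) (v (i + 1)) =
      (∏ i : Fin m, F (v i.castSucc) (v i.succ)) * F (v (Fin.last m)) (v 0) := by
    intro v
    rw [Fin.prod_univ_castSucc]
    simp only [Fin.coeSucc_eq_succ, Fin.last_add_one]
  have h := walk_sum F m (fun a b => F b a)
  rw [pow_succ, Matrix.trace]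
  simp only [Matrix.diag_apply, Matrix.mul_apply]
  rw [← h]
  exact Finset.sum_congr rfl fun v _ => e v

/-- the transfer matrix -/
noncomputable def NN : Matrix (Fin 3) (Fin 3) ℝ[X] :=
  !![X + 2, X + 2, 1; X * (X + 2), X ^ 2 + 3 * X + 1, X; 1, 1, 1]

/-- `μ^n + μ^{-n}` as a polynomial in `s = μ + μ⁻¹`, at `s = X + 3`. -/
noncomputable def LL : ℕ → ℝ[X]
  | 0 => 2
  | 1 => X + 3
  | n + 2 => (X + 3) * LL (n + 1) - LL n

theorem NN_cube : NN ^ 3 = ((X + 2) ^ 2 : ℝ[X]) • NN ^ 2 - (2 * (1 + X) * (X + 2) : ℝ[X]) • NN +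
    ((1 + X) ^ 2 : ℝ[X]) • (1 : Matrix (Fin 3) (Fin 3) ℝ[X]) := by
  refine Matrix.ext fun i j => ?_
  rw [pow_succ, pow_two]
  fin_cases i <;> fin_cases j <;>
    simp [NN, Matrix.mul_apply, Fin.sum_univ_succ, Matrix.one_apply] <;> ring

theorem trace_rec (n : ℕ) : Matrix.trace (NN ^ (n + 3)) =
    (X + 2) ^ 2 * Matrix.trace (NN ^ (n + 2)) - (2 * (1 + X) * (X + 2)) * Matrix.trace (NN ^ (n + 1)) +
      (1 + X) ^ 2 * Matrix.trace (NN ^ n) := by
  have h : NN ^ (n + 3) = ((X + 2) ^ 2 : ℝ[X]) • NN ^ (n + 2) - (2 * (1 + X) * (X + 2) : ℝ[X]) • NN ^ (n + 1) +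
      ((1 + X) ^ 2 : ℝ[X]) • NN ^ n := by
    rw [pow_add, NN_cube, mul_add, mul_sub]
    simp only [Matrix.mul_smul, mul_one]
    rw [← pow_add, ← pow_succ]
  rw [h]
  simp only [Matrix.trace_add, Matrix.trace_sub, Matrix.trace_smul, smul_eq_mul]

theorem trace_eq (n : ℕ) : Matrix.trace (NN ^ n) = 1 + (1 + X) ^ n * LL n := by
  induction n using Nat.strong_induction_on with
  | _ n ih =>
    match n with
    | 0 => simp [LL]; norm_num
    | 1 => simp [LL, NN, Matrix.trace, Fin.sum_univ_succ]; ring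
    | 2 => simp [LL, NN, Matrix.trace, Fin.sum_univ_succ, pow_two, Matrix.mul_apply]; ring
    | m + 3 =>
      rw [trace_rec, ih (m + 2) (by omega), ih (m + 1) (by omega), ih m (by omega)]
      rw [show LL (m + 3) = (X + 3) * LL (m + 2) - LL (m + 1) from rfl,
        show LL (m + 2) = (X + 3) * LL (m + 1) - LL m from rfl]
      ring

end Q151.CrownF
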