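import Pool.Agent.Q151.CrownF.Dim
import Pool.Agent.Q151.CrownF.Trace

/-!
The generating polynomial of the faces.
-/

namespace Q151.CrownF

open Finset Polynomial Pool.Agent.W304.HL

variable {n : ℕ}

/-- weights -/
noncomputable def wt (s : Fin 3) (c : Fin 5) (s' : Fin 3) : ℝ[X] :=
  if allowed s c s' then X ^ ((if s = 1 ∧ c ≠ 0 then 1 else 0) + (if c = 3 then 1 else 0)) else 0

theorem NN_eq (s s' : Fin 3) : NN s s' = ∑ c, wt s c s' := by
  rw [Fin.sum_univ_five]
  fin_cases s <;> fin_cases s' <;>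
    simp (decide := true) [NN, wt] <;> ring

variable [NeZero n]

theorem sum_ok [DecidablePred fun p : (ZMod n → Fin 3) × (ZMod n → Fin 5) => ok p.1 p.2] :
    ∑ p ∈ (univ : Finset ((ZMod n → Fin 3) × (ZMod n → Fin 5))).filter (fun p => ok p.1 p.2),
      (X : ℝ[X]) ^ core p.1 p.2 = Matrix.trace (NN ^ n) := by
  rw [← closed_walks, Finset.sum_filter, Fintype.sum_prod_type]
  refine Finset.sum_congr rfl fun σ _ => ?_
  simp only [NN_eq]
  rw [Finset.prod_univ_sum, Fintype.piFinset_univ]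
  refine Finset.sum_congr rfl fun τ _ => ?_
  simp only [wt]
  rw [Finset.prod_ite_zero]
  have : (∀ i ∈ (univ : Finset (ZMod n)), allowed (σ i) (τ i) (σ (i + 1))) ↔ ok σ τ :=
    ⟨fun h i => h i (Finset.mem_univ i), fun h i _ => h i⟩
  by_cases h : ok σ τ
  · rw [if_pos h, if_pos (this.2 h), Finset.prod_pow_eq_pow_sum]
    rfl
  · rw [if_neg h, if_neg (fun h' => h (this.1 h'))]

theorem core_two (c : Fin 5) (hc : c = 1 ∨ c = 2) {τ : ZMod n → Fin 5}
    (h : ∀ i, τ i = 0 ∨ τ i = c) :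
    core (fun _ => 1) τ = ∑ i, (if τ i = c then 1 else 0) := by
  unfold core
  refine Finset.sum_congr rfl fun i _ => ?_
  rcases hc with rfl | rfl <;> rcases h i with h' | h' <;> simp [h', Fin.ext_iff]

theorem sum_two (c : Fin 5) (hc : c = 1 ∨ c = 2) :
    ∑ τ ∈ Fintype.piFinset (fun _ : ZMod n => ({0, c} : Finset (Fin 5))),
      (X : ℝ[X]) ^ core (fun _ => (1 : Fin 3)) τ = (1 + X) ^ n := by
  have h1 : ∏ _i : ZMod n, ∑ d ∈ ({0, c} : Finset (Fin 5)), (X : ℝ[X]) ^ (if d = c then 1 else 0) =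
      (1 + X) ^ n := by
    have h0c : (0 : Fin 5) ≠ c := by rcases hc with rfl | rfl <;> decide
    rw [Finset.sum_pair h0c, if_neg h0c, if_pos rfl, pow_zero, pow_one, Finset.prod_const,
      Finset.card_univ, ZMod.card]
  rw [← h1, Finset.prod_univ_sum]
  refine Finset.sum_congr rfl fun τ hτ => ?_
  have h2 : ∀ i, τ i = 0 ∨ τ i = c := by
    intro i
    have := Fintype.mem_piFinset.1 hτ i
    simpa using this
  rw [core_two c hc h2, Finset.prod_pow_eq_pow_sum]

/-- bad patterns as a finset -/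
theorem sum_bad [DecidablePred fun p : (ZMod n → Fin 3) × (ZMod n → Fin 5) => bad p.1 p.2] :
    ∑ p ∈ (univ : Finset ((ZMod n → Fin 3) × (ZMod n → Fin 5))).filter (fun p => bad p.1 p.2),
      (X : ℝ[X]) ^ core p.1 p.2 = 2 * ((1 + X) ^ n - 1) := by
  classical
  set F : Fin 5 → Finset (ZMod n → Fin 5) := fun c =>
    (Fintype.piFinset (fun _ : ZMod n => ({0, c} : Finset (Fin 5)))).erase (fun _ => 0) with hF
  have hmem : ∀ c τ, τ ∈ F c ↔ ((∃ i, τ i ≠ 0) ∧ ∀ i, τ i = 0 ∨ τ i = c) := by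
    intro c τ
    rw [hF]
    simp only [Finset.mem_erase, Fintype.mem_piFinset, Finset.mem_insert, Finset.mem_singleton]
    constructor
    · rintro ⟨h1, h2⟩
      refine ⟨?_, h2⟩
      by_contra h
      push Not at h
      exact h1 (funext h)
    · rintro ⟨⟨i, hi⟩, h2⟩
      exact ⟨fun h => hi (by rw [h]), h2⟩
  have hset : (univ : Finset ((ZMod n → Fin 3) × (ZMod n → Fin 5))).filter (fun p => bad p.1 p.2) =
      (F 1 ∪ F 2).image (fun τ => ((fun _ => (1 : Fin 3)), τ)) := by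
    ext ⟨σ, τ⟩
    rw [Finset.mem_filter]
    simp only [Finset.mem_univ, true_and, Finset.mem_image, Finset.mem_union,
      hmem, Prod.mk.injEq]
    unfold bad
    constructor
    · rintro ⟨h1, h2, h3 | h3⟩
      · exact ⟨τ, Or.inl ⟨h2, h3⟩, (funext h1).symm, rfl⟩
      · exact ⟨τ, Or.inr ⟨h2, h3⟩, (funext h1).symm, rfl⟩
    · rintro ⟨τ', h | h, h1, h2⟩
      · subst h2; subst h1
        exact ⟨fun _ => rfl, h.1, Or.inl h.2⟩
      · subst h2; subst h1
        exact ⟨fun _ => rfl, h.1, Or.inr h.2⟩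
  have hdisj : Disjoint (F 1) (F 2) := by
    rw [Finset.disjoint_left]
    intro τ h1 h2
    rw [hmem] at h1 h2
    obtain ⟨⟨i, hi⟩, h1⟩ := h1
    rcases h1 i with h | h
    · exact hi h
    · rcases h2.2 i with h' | h'
      · exact hi h'
      · rw [h] at h'; exact absurd h' (by decide)
  rw [hset, Finset.sum_image (by
    intro a _ b _ h
    exact (Prod.mk.injEq _ _ _ _ ▸ h).2), Finset.sum_union hdisj]
  have hz : ∀ c : Fin 5, (fun _ => 0 : ZMod n → Fin 5) ∈
      Fintype.piFinset (fun _ : ZMod n => ({0, c} : Finset (Fin 5))) := by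
    intro c; simp [Fintype.mem_piFinset]
  have hcz : core (fun _ => (1 : Fin 3)) (fun _ => 0 : ZMod n → Fin 5) = 0 := by
    simp [core, Fin.ext_iff]
  have e1 := Finset.sum_erase_eq_sub (f := fun τ => (X : ℝ[X]) ^ core (fun _ => (1 : Fin 3)) τ) (hz 1)
  have e2 := Finset.sum_erase_eq_sub (f := fun τ => (X : ℝ[X]) ^ core (fun _ => (1 : Fin 3)) τ) (hz 2)
  rw [sum_two 1 (Or.inl rfl), hcz, pow_zero] at e1
  rw [sum_two 2 (Or.inr rfl), hcz, pow_zero] at e2
  simp only [hF]
  rw [e1, e2]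
  ring

theorem ok_of_bad {σ : ZMod n → Fin 3} {τ : ZMod n → Fin 5} (h : bad σ τ) : ok σ τ := by
  obtain ⟨h1, -, h2⟩ := h
  intro i
  rw [h1 i, h1 (i + 1)]
  rcases h2 with h2 | h2 <;> rcases h2 i with h | h <;> rw [h] <;> decide

open Classical in
/-- the good patterns -/
noncomputable def good (n : ℕ) [NeZero n] : Finset ((ZMod n → Fin 3) × (ZMod n → Fin 5)) :=
  univ.filter fun p => ok p.1 p.2 ∧ ¬ bad p.1 p.2

open Classical in
/-- full core dimension -/
noncomputable def coreF (p : (ZMod n → Fin 3) × (ZMod n → Fin 5)) : ℕ :=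
  if (∀ i, p.1 i = 1) ∧ ∀ i, p.2 i = 0 then 1 else core p.1 p.2

theorem sum_good : ∑ p ∈ good n, (X : ℝ[X]) ^ coreF p =
    (X + 2) + (1 + X) ^ n * (LL n - 2) := by
  classical
  have h1 : ∑ p ∈ good n, (X : ℝ[X]) ^ core p.1 p.2 +
      2 * ((1 + X) ^ n - 1) = 1 + (1 + X) ^ n * LL n := by
    rw [← trace_eq, ← sum_ok, ← sum_bad]
    rw [good, ← Finset.sum_union]
    · congr 1
      ext p
      simp only [Finset.mem_union, Finset.mem_filter, Finset.mem_univ, true_and]
      constructor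
      · rintro (h | h)
        · exact h.1
        · exact ok_of_bad h
      · intro h
        by_cases hb : bad p.1 p.2
        · exact Or.inr hb
        · exact Or.inl ⟨h, hb⟩
    · rw [Finset.disjoint_left]
      intro p h h'
      exact (Finset.mem_filter.1 h).2.2 (Finset.mem_filter.1 h').2
  -- the closed pattern
  set p0 : (ZMod n → Fin 3) × (ZMod n → Fin 5) := (fun _ => 1, fun _ => 0) with hp0
  have hp0g : p0 ∈ good n := by
    rw [good, Finset.mem_filter]
    refine ⟨Finset.mem_univ _, ?_, ?_⟩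
    · intro i; exact Or.inl ⟨rfl, Or.inr ⟨rfl, rfl⟩⟩
    · rintro ⟨-, ⟨i, hi⟩, -⟩; exact hi rfl
  have hc0 : core p0.1 p0.2 = 0 := by simp [hp0, core, Fin.ext_iff]
  have hcF0 : coreF p0 = 1 := by
    rw [coreF, if_pos ⟨fun _ => rfl, fun _ => rfl⟩]
  have hcF : ∀ p ∈ (good n).erase p0, coreF p = core p.1 p.2 := by
    intro p hp
    rw [coreF, if_neg]
    rintro ⟨h1, h2⟩
    apply (Finset.mem_erase.1 hp).1
    exact Prod.ext (funext h1) (funext h2)
  have h2 : ∑ p ∈ good n, (X : ℝ[X]) ^ coreF p =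
      X + ∑ p ∈ (good n).erase p0, (X : ℝ[X]) ^ core p.1 p.2 := by
    rw [← Finset.add_sum_erase _ _ hp0g, hcF0, pow_one]
    congr 1
    exact Finset.sum_congr rfl fun p hp => by rw [hcF p hp]
  have h3 : ∑ p ∈ good n, (X : ℝ[X]) ^ core p.1 p.2 =
      1 + ∑ p ∈ (good n).erase p0, (X : ℝ[X]) ^ core p.1 p.2 := by
    rw [← Finset.add_sum_erase _ _ hp0g, hc0, pow_zero]
  rw [h3] at h1
  rw [h2]
  linear_combination h1

/-- all tight sets -/
def types (n : ℕ) [NeZero n] : Set (Set (Ineq n)) := {T | ∃ x ∈ poly (cf n) (df n), tight (cf n) (df n) x = T}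

theorem T0_mem (lo hi : Bool) (h : ¬ (lo = true ∧ hi = true)) : T0 n lo hi ∈ types n := by
  obtain ⟨c, hc0, hc1, hc2, hc3⟩ : ∃ c : ℝ, 0 ≤ c ∧ c ≤ 1 ∧ (c = 0 ↔ lo = true) ∧
      (c = 1 ↔ hi = true) := by
    cases lo <;> cases hi
    · exact ⟨1 / 2, by norm_num, by norm_num, by norm_num, by norm_num⟩
    · exact ⟨1, by norm_num, by norm_num, by norm_num, by norm_num⟩
    · exact ⟨0, by norm_num, by norm_num, by norm_num, by norm_num⟩
    · exact absurd ⟨rfl, rfl⟩ h
  refine ⟨fun _ => c, ?_, ?_⟩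
  · rw [mem_poly]; exact ⟨hc0, fun _ => le_rfl, fun _ => le_rfl, fun _ => le_rfl, fun _ => le_rfl, hc1⟩
  · obtain ⟨t1, t2, t3, t4, t5, t6⟩ := mem_tight (fun _ : Face n => c)
    ext j
    cases j with
    | lo => rw [t1, hc2]; rfl
    | hi => rw [t6, hc3]; rfl
    | Z i => rw [t2]; exact ⟨fun _ => trivial, fun _ => rfl⟩
    | A i => rw [t3]; exact ⟨fun _ => trivial, fun _ => rfl⟩
    | B i => rw [t4]; exact ⟨fun _ => trivial, fun _ => rfl⟩
    | C i => rw [t5]; exact ⟨fun _ => trivial, fun _ => rfl⟩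

theorem types_cases {T : Set (Ineq n)} (hT : T ∈ types n) :
    (∃ lo hi, ¬ (lo = true ∧ hi = true) ∧ T = T0 n lo hi) ∨
    ∃ (lo hi : Bool) (σ : ZMod n → Fin 3) (τ : ZMod n → Fin 5), ok σ τ ∧ ¬ bad σ τ ∧
      T = Tof lo hi σ τ := by
  classical
  obtain ⟨x, hx, rfl⟩ := hT
  have hx' := (mem_poly x).1 hx
  obtain ⟨h1, h2, h3, h4, h5, h6⟩ := hx'
  have hbt : x .bot ≤ x .top := ((h2 0).trans (h3 0)).trans (h5 0)
  rcases hbt.eq_or_lt with h | h
  · left
    have hv : ∀ i, x (.vert i) = x .bot := fun i =>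
      le_antisymm (((h3 i).trans (h5 i)).trans h.ge) (h2 i)
    have he : ∀ i, x (.edge i) = x .bot := fun i =>
      le_antisymm ((h5 i).trans h.ge) ((h2 i).trans (h3 i))
    refine ⟨decide (x .bot = 0), decide (x .top = 1), ?_, ?_⟩
    · rintro ⟨a, b⟩
      simp only [decide_eq_true_eq] at a b
      rw [← h, a] at b
      norm_num at b
    · obtain ⟨t1, t2, t3, t4, t5, t6⟩ := mem_tight x
      ext j
      cases j with
      | lo => rw [t1]; exact (decide_eq_true_iff).symm
      | hi => rw [t6]; exact (decide_eq_true_iff).symm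
      | Z i => rw [t2]; exact ⟨fun _ => trivial, fun _ => hv i⟩
      | A i => rw [t3]; exact ⟨fun _ => trivial, fun _ => by rw [hv, he]⟩
      | B i => rw [t4]; exact ⟨fun _ => trivial, fun _ => by rw [hv, he]⟩
      | C i => rw [t5]; exact ⟨fun _ => trivial, fun _ => by rw [he, h]⟩
  · right
    exact exists_pat hx h

theorem T0_ne_Tof (lo hi lo' hi' : Bool) (σ : ZMod n → Fin 3) (τ : ZMod n → Fin 5) :
    T0 n lo hi ≠ Tof lo' hi' σ τ := by
  intro h
  obtain ⟨m1, m2, m3, m4, m5, m6⟩ := mem_Tof lo' hi' σ τ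
  rw [← h] at m3 m4 m6
  have a := (m3 0).1 trivial
  have b := (m4 0).1 trivial
  have c := (m6 0).1 trivial
  rw [a, c] at b
  revert b
  decide

theorem T0_inj {lo hi lo' hi' : Bool} (h : T0 n lo hi = T0 n lo' hi') : lo = lo' ∧ hi = hi' := by
  have h1 : (Ineq.lo ∈ T0 n lo hi) = (Ineq.lo ∈ T0 n lo' hi') := by rw [h]
  have h2 : (Ineq.hi ∈ T0 n lo hi) = (Ineq.hi ∈ T0 n lo' hi') := by rw [h]
  have h1' : (lo = true) = (lo' = true) := h1
  have h2' : (hi = true) = (hi' = true) := h2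
  constructor
  · cases lo <;> cases lo' <;> simp_all
  · cases hi <;> cases hi' <;> simp_all

open Classical in
/-- The generating polynomial of the nonempty faces. -/
noncomputable def gen (n : ℕ) [NeZero n] : ℝ[X] :=
  ∑ T ∈ (Set.toFinite (types n)).toFinset, X ^ (Module.finrank ℝ (dirn (cf n) T))

theorem gen_coeff (i : ℕ) : (gen n).coeff i = ((facesOfDim (orderPolytope (Face n)) i).ncard : ℝ) := by
  classical
  rw [orderPolytope_eq, ncard_faces, gen, finsetSum_coeff]
  simp only [coeff_X_pow]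
  rw [Finset.sum_boole]
  congr 1
  rw [← Set.ncard_coe_finset]
  congr 1
  ext T
  simp only [Finset.coe_filter, Set.Finite.mem_toFinset, Set.mem_ofPred_eq, ftypes, types]
  constructor
  · rintro ⟨h1, h2⟩; exact ⟨h1, h2.symm⟩
  · rintro ⟨h1, h2⟩; exact ⟨h1, h2.symm⟩

theorem gen_eq : gen n = (X + 2) + (1 + X) ^ 2 * ((X + 2) + (1 + X) ^ n * (LL n - 2)) := by
  classical
  have hset : (Set.toFinite (types n)).toFinset =
      (({(true, false), (false, true), (false, false)} : Finset (Bool × Bool)).image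
        fun f => T0 n f.1 f.2) ∪
      (((univ : Finset (Bool × Bool)) ×ˢ good n).image fun q => Tof q.1.1 q.1.2 q.2.1 q.2.2) := by
    ext T
    simp only [Set.Finite.mem_toFinset, Finset.mem_union, Finset.mem_image, Finset.mem_product,
      Finset.mem_univ, true_and]
    constructor
    · intro hT
      rcases types_cases hT with ⟨lo, hi, h1, h2⟩ | ⟨lo, hi, σ, τ, h1, h2, h3⟩
      · left
        refine ⟨(lo, hi), ?_, h2.symm⟩
        cases lo <;> cases hi <;> simp_all
      · right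
        refine ⟨((lo, hi), (σ, τ)), ?_, h3.symm⟩
        rw [good, Finset.mem_filter]
        exact ⟨Finset.mem_univ _, h1, h2⟩
    · rintro (⟨f, hf, rfl⟩ | ⟨q, hq, rfl⟩)
      · apply T0_mem
        rintro ⟨h1, h2⟩
        obtain ⟨lo, hi⟩ := f
        simp only at h1 h2
        subst h1; subst h2
        simp at hf
      · rw [good, Finset.mem_filter] at hq
        exact realize_T _ _ hq.2.1 hq.2.2
  have hdisj : Disjoint
      ((({(true, false), (false, true), (false, false)} : Finset (Bool × Bool)).image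
        fun f => T0 n f.1 f.2))
      (((univ : Finset (Bool × Bool)) ×ˢ good n).image fun q => Tof q.1.1 q.1.2 q.2.1 q.2.2) := by
    rw [Finset.disjoint_left]
    intro T h1 h2
    simp only [Finset.mem_image] at h1 h2
    obtain ⟨f, -, rfl⟩ := h1
    obtain ⟨q, -, hq⟩ := h2
    exact T0_ne_Tof _ _ _ _ _ _ hq.symm
  rw [gen, hset, Finset.sum_union hdisj, Finset.sum_image, Finset.sum_image]
  · congr 1
    · simp only [dim_T0]
      rw [Finset.sum_insert (by decide), Finset.sum_insert (by decide), Finset.sum_singleton]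
      simp
      ring
    · rw [← sum_good, Finset.sum_product]
      have h1 : ∀ f : Bool × Bool, ∑ p ∈ good n,
          (X : ℝ[X]) ^ (Module.finrank ℝ (dirn (cf n) (Tof f.1 f.2 p.1 p.2))) =
          X ^ flagDim f.1 f.2 * ∑ p ∈ good n, X ^ coreF p := by
        intro f
        rw [Finset.mul_sum]
        refine Finset.sum_congr rfl fun p hp => ?_
        rw [good, Finset.mem_filter] at hp
        rw [dim_pat f.1 f.2 hp.2.1, ← pow_add]
        rfl
      rw [Finset.sum_congr rfl fun f _ => h1 f, ← Finset.sum_mul]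
      congr 1
      rw [Fintype.sum_prod_type]
      simp [flagDim]
      ring
  · rintro ⟨⟨a, b⟩, ⟨σ, τ⟩⟩ hq ⟨⟨a', b'⟩, ⟨σ', τ'⟩⟩ hq' h
    simp only [Finset.mem_coe, Finset.mem_product, Finset.mem_univ, true_and] at hq hq'
    rw [good, Finset.mem_filter] at hq hq'
    obtain ⟨h1, h2, h3, h4⟩ := Tof_inj hq.2.1 hq'.2.1 h
    simp only at h1 h2 h3 h4
    rw [h1, h2, h3, h4]
  · rintro ⟨a, b⟩ _ ⟨a', b'⟩ _ h
    obtain ⟨h1, h2⟩ := T0_inj h
    simp only at h1 h2
    rw [h1, h2]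

end Q151.CrownF
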