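import Pool.Agent.Q151.CrownF.Realize

/-!
Dimensions of the faces.
-/

namespace Q151.CrownF

open Finset Pool.Agent.W304.HL

variable {n : ℕ} [NeZero n]

/-- sums over the faces -/
theorem sum_face (f : Face n → ℕ) :
    ∑ a, f a = f .bot + f .top + (∑ i, f (.vert i) + ∑ i, f (.edge i)) := by
  rw [← (faceEquiv n).symm.sum_comp, Fintype.sum_sum_type, Fintype.sum_sum_type,
    Fintype.sum_sum_type]
  simp only [Finset.univ_unique, Finset.sum_singleton]
  have e1 : f ((faceEquiv n).symm (Sum.inl (Sum.inl default))) = f .bot := rfl
  have e2 : f ((faceEquiv n).symm (Sum.inr (Sum.inr default))) = f .top := rfl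
  have e3 : ∀ i, f ((faceEquiv n).symm (Sum.inl (Sum.inr i))) = f (.vert i) := fun i => rfl
  have e4 : ∀ i, f ((faceEquiv n).symm (Sum.inr (Sum.inl i))) = f (.edge i) := fun i => rfl
  simp only [e3, e4]
  rw [e1, e2]
  ring

theorem card_face (p : Face n → Prop) [DecidablePred p] :
    Nat.card {a // p a} = (if p .bot then 1 else 0) + (if p .top then 1 else 0) +
      (∑ i, (if p (.vert i) then 1 else 0) + ∑ i, (if p (.edge i) then 1 else 0)) := by
  rw [Nat.card_eq_fintype_card, Fintype.card_subtype, Finset.card_filter]
  exact sum_face fun a => if p a then 1 else 0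

/-- core dimension of a pattern -/
noncomputable def core (σ : ZMod n → Fin 3) (τ : ZMod n → Fin 5) : ℕ :=
  ∑ i, ((if σ i = 1 ∧ τ i ≠ 0 then 1 else 0) + (if τ i = 3 then 1 else 0))

/-- flags dimension -/
def flagDim (lo hi : Bool) : ℕ := (if lo then 0 else 1) + (if hi then 0 else 1)

/-- the closed pattern: everything equal, strictly between -/
theorem dim_all (lo hi : Bool) {σ : ZMod n → Fin 3} {τ : ZMod n → Fin 5}
    (hσ : ∀ i, σ i = 1) (hτ : ∀ i, τ i = 0) :
    Module.finrank ℝ (dirn (cf n) (Tof lo hi σ τ)) = flagDim lo hi + 1 := by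
  classical
  obtain ⟨rep, rb, rt, rv, re⟩ : ∃ rep : Face n → Option (Face n),
      rep .bot = (if lo then none else some .bot) ∧ rep .top = (if hi then none else some .top) ∧
      (∀ i, rep (.vert i) = some (.vert 0)) ∧ (∀ i, rep (.edge i) = some (.vert 0)) :=
    ⟨fun a => match a with
    | .bot => if lo then none else some .bot
    | .top => if hi then none else some .top
    | .vert _ => some (.vert 0)
    | .edge _ => some (.vert 0), rfl, rfl, fun _ => rfl, fun _ => rfl⟩
  obtain ⟨m1, m2, m3, m4, m5, m6⟩ := mem_Tof lo hi σ τ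
  rw [finrank_rep _ rep]
  · rw [card_face]
    have e1 : (if rep .bot = some .bot then 1 else 0) = (if lo then 0 else 1) := by
      rw [rb]; cases lo <;> simp
    have e2 : (if rep .top = some .top then 1 else 0) = (if hi then 0 else 1) := by
      rw [rt]; cases hi <;> simp
    have e3 : ∑ i : ZMod n, (if rep (.vert i) = some (.vert i) then 1 else 0) = 1 := by
      rw [Finset.sum_eq_single 0]
      · simp [rv]
      · intro i _ hi
        have : ¬ (some (Face.vert (0 : ZMod n)) = some (Face.vert i)) := by
          intro h; simp only [Option.some.injEq, Face.vert.injEq] at h; exact hi h.symm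
        rw [rv, if_neg this]
      · intro h; exact absurd (Finset.mem_univ _) h
    have e4 : ∑ i : ZMod n, (if rep (.edge i) = some (.edge i) then 1 else 0) = 0 := by
      apply Finset.sum_eq_zero
      intro i _
      have : ¬ (some (Face.vert (0 : ZMod n)) = some (Face.edge i)) := by simp
      rw [re, if_neg this]
    rw [e1, e2, e3, e4, flagDim]
  · intro a b h
    cases a with
    | bot => rw [rb] at h; cases lo <;> simp_all
    | top => rw [rt] at h; cases hi <;> simp_all
    | vert i => rw [rv] at h; simp only [Option.some.injEq] at h; rw [← h, rv]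
    | edge i => rw [re] at h; simp only [Option.some.injEq] at h; rw [← h, rv]
  · intro δ
    rw [mem_dirn']
    constructor
    · rintro ⟨h1, h2, h3, h4, h5, h6⟩
      have hA : ∀ i, δ (.vert i) = δ (.edge i) := fun i => h3 i ((m4 i).2 (Or.inl (hτ i)))
      have hB : ∀ i, δ (.vert (i + 1)) = δ (.edge i) := fun i => h4 i ((m5 i).2 (Or.inl (hτ i)))
      have hv : ∀ k : ℕ, δ (.vert (k : ZMod n)) = δ (.vert 0) := by
        intro k
        induction k with
        | zero => rw [Nat.cast_zero]
        | succ k ih => rw [Nat.cast_succ, hB, ← hA, ih]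
      have hv' : ∀ i : ZMod n, δ (.vert i) = δ (.vert 0) := by
        intro i
        have := hv i.val
        rwa [ZMod.natCast_zmod_val] at this
      intro a
      cases a with
      | bot =>
        rw [rb]
        cases hlo : lo
        · simp
        · simp only [if_true, Option.elim_none]; exact h1 (m1.2 hlo)
      | top =>
        rw [rt]
        cases hhi : hi
        · simp
        · simp only [if_true, Option.elim_none]; exact h6 (m2.2 hhi)
      | vert i => rw [rv]; exact hv' i
      | edge i => rw [re, ← hA]; exact hv' i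
    · intro h
      refine ⟨fun hm => ?_, fun i hm => ?_, fun i hm => ?_, fun i hm => ?_, fun i hm => ?_,
        fun hm => ?_⟩
      · have := h .bot
        rw [rb, if_pos (m1.1 hm)] at this
        exact this
      · have := (m3 i).1 hm
        rw [hσ] at this
        exact absurd this (by decide)
      · rw [h (.vert i), h (.edge i), rv, re]
      · rw [h (.vert (i + 1)), h (.edge i), rv, re]
      · have := (m6 i).1 hm
        rw [hτ] at this
        exact absurd this (by decide)
      · have := h .top
        rw [rt, if_pos (m2.1 hm)] at this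
        exact this

/-- next position with code different from `0` -/
theorem exists_next {τ : ZMod n → Fin 5} (h : ∃ j, τ j ≠ 0) (i : ZMod n) :
    ∃ k : ℕ, τ (i + (k : ZMod n)) ≠ 0 := by
  obtain ⟨j, hj⟩ := h
  refine ⟨(j - i).val, ?_⟩
  rw [ZMod.natCast_zmod_val, add_sub_cancel]
  exact hj

theorem exists_r {τ : ZMod n → Fin 5} (h : ∃ j, τ j ≠ 0) :
    ∃ r : ZMod n → ZMod n, (∀ i, τ (r i) ≠ 0) ∧ (∀ i, τ i ≠ 0 → r i = i) ∧
      (∀ i, τ i = 0 → r i = r (i + 1)) ∧
      ∀ P : ZMod n → Prop, (∀ i, P i → τ i = 0 → P (i + 1)) → ∀ i, P i → P (r i) := by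
  classical
  set f : ZMod n → ℕ := fun i => Nat.find (exists_next h i) with hf
  have hspec : ∀ i, τ (i + (f i : ZMod n)) ≠ 0 := fun i => Nat.find_spec (exists_next h i)
  have hmin : ∀ i k, k < f i → τ (i + (k : ZMod n)) = 0 := by
    intro i k hk
    by_contra hc
    exact Nat.find_min (exists_next h i) hk hc
  refine ⟨fun i => i + (f i : ZMod n), hspec, ?_, ?_, ?_⟩
  · intro i hi
    have : f i = 0 := by
      rw [hf]
      exact (Nat.find_eq_zero _).2 (by simpa using hi)
    simp [this]
  · intro i hi
    have h0 : f i ≠ 0 := by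
      intro h0
      have := hspec i
      rw [h0] at this
      simp at this
      exact this hi
    have : f i = f (i + 1) + 1 := by
      apply le_antisymm
      · apply Nat.find_min'
        have := hspec (i + 1)
        push_cast
        have e : i + ((f (i + 1) : ZMod n) + 1) = i + 1 + (f (i + 1) : ZMod n) := by ring
        rw [e]; exact this
      · have h1 : f (i + 1) ≤ f i - 1 := by
          apply Nat.find_min'
          have := hspec i
          have e : i + 1 + ((f i - 1 : ℕ) : ZMod n) = i + (f i : ZMod n) := by
            rw [Nat.cast_sub (by omega)]; push_cast; ring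
          rw [e]; exact this
        omega
    simp only [this]
    push_cast
    ring
  · intro P hP i hi
    have : ∀ k : ℕ, k ≤ f i → P (i + (k : ZMod n)) := by
      intro k
      induction k with
      | zero => intro _; simpa using hi
      | succ k ih =>
        intro hk
        have := hP _ (ih (by omega)) (hmin i k (by omega))
        push_cast
        rw [← add_assoc]
        exact this
    exact this _ le_rfl

/-- generic patterns -/
theorem dim_core (lo hi : Bool) {σ : ZMod n → Fin 3} {τ : ZMod n → Fin 5} (hok : ok σ τ)
    (hall : ¬ ((∀ i, σ i = 1) ∧ ∀ i, τ i = 0)) (hz : (∃ i, τ i ≠ 0) ∨ ∀ i, σ i = 0) :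
    Module.finrank ℝ (dirn (cf n) (Tof lo hi σ τ)) = flagDim lo hi + core σ τ := by
  classical
  -- representatives
  obtain ⟨r, hr1, hr2, hr3, hr4⟩ : ∃ r : ZMod n → ZMod n,
      (∀ i, σ i = 1 → τ (r i) ≠ 0) ∧ (∀ i, τ i ≠ 0 → r i = i) ∧
      (∀ i, σ i = 1 → τ i = 0 → r i = r (i + 1)) ∧ (∀ P : ZMod n → Prop,
        (∀ i, P i → σ i = 1 → τ i = 0 → P (i + 1)) → ∀ i, σ i = 1 → P i → P (r i)) := by
    rcases hz with hz | hz
    · obtain ⟨r, a1, a2, a3, a4⟩ := exists_r hz
      refine ⟨r, fun i _ => a1 i, a2, fun i _ => a3 i, ?_⟩
      intro P hP i hσ hi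
      refine (a4 (fun i => P i ∧ σ i = 1) ?_ i ⟨hi, hσ⟩).1
      rintro j ⟨hj, hj'⟩ hj0
      refine ⟨hP j hj hj' hj0, ?_⟩
      rcases hok j with ⟨_, hs⟩ | ⟨hc, _⟩ | ⟨hc, _⟩ | ⟨hc, _⟩ | hc
      · rcases hs with ⟨h1, _⟩ | ⟨_, h2⟩
        · rw [hj'] at h1; exact absurd h1 (by decide)
        · exact h2
      · rw [hj0] at hc; exact absurd hc (by decide)
      · rw [hj0] at hc; exact absurd hc (by decide)
      · rw [hj0] at hc; exact absurd hc (by decide)
      · rw [hj0] at hc; exact absurd hc (by decide)
    · refine ⟨id, fun i h => ?_, fun i _ => rfl, fun i h => ?_, fun P _ i h => ?_⟩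
      · rw [hz i] at h; exact absurd h (by decide)
      · rw [hz i] at h; exact absurd h (by decide)
      · rw [hz i] at h; exact absurd h (by decide)
  have hσr : ∀ i, σ i = 1 → σ (r i) = 1 := by
    intro i hi
    refine hr4 (fun i => σ i = 1) ?_ i hi hi
    intro j hj _ hj0
    rcases hok j with ⟨_, hs⟩ | ⟨hc, _⟩ | ⟨hc, _⟩ | ⟨hc, _⟩ | hc
    · rcases hs with ⟨h1, _⟩ | ⟨_, h2⟩
      · rw [hj] at h1; exact absurd h1 (by decide)
      · exact h2
    · rw [hj0] at hc; exact absurd hc (by decide)
    · rw [hj0] at hc; exact absurd hc (by decide)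
    · rw [hj0] at hc; exact absurd hc (by decide)
    · rw [hj0] at hc; exact absurd hc (by decide)
  set repb : Option (Face n) := if lo then none else some .bot with hrepb
  set rept : Option (Face n) := if hi then none else some .top with hrept
  set rv : ZMod n → Option (Face n) := fun i =>
    if σ i = 0 then repb else if σ i = 2 then rept else some (.vert (r i)) with hrv
  set re : ZMod n → Option (Face n) := fun i =>
    if τ i = 3 then some (.edge i) else if τ i = 4 then rept else
      if τ i = 2 then rv (i + 1) else rv i with hre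
  set rep : Face n → Option (Face n) := fun a => match a with
    | .bot => repb
    | .top => rept
    | .vert i => rv i
    | .edge i => re i with hrep
  have Rb : rep .bot = repb := rfl
  have Rt : rep .top = rept := rfl
  have Rv : ∀ i, rep (.vert i) = rv i := fun i => rfl
  have Re : ∀ i, rep (.edge i) = re i := fun i => rfl
  clear_value rep
  have rv0 : ∀ i, σ i = 0 → rv i = repb := fun i h => by simp [hrv, h]
  have rv2 : ∀ i, σ i = 2 → rv i = rept := fun i h => by simp [hrv, h]
  have rv1 : ∀ i, σ i = 1 → rv i = some (.vert (r i)) := fun i h => by simp [hrv, h]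
  have re3 : ∀ i, τ i = 3 → re i = some (.edge i) := fun i h => by simp [hre, h]
  have re4 : ∀ i, τ i = 4 → re i = rept := fun i h => by simp [hre, h]
  have re2 : ∀ i, τ i = 2 → re i = rv (i + 1) := fun i h => by simp [hre, h]
  have re1 : ∀ i, τ i = 1 → re i = rv i := fun i h => by simp [hre, h]
  have re0 : ∀ i, τ i = 0 → re i = rv i := fun i h => by simp [hre, h]
  have tri : ∀ i, σ i = 0 ∨ σ i = 1 ∨ σ i = 2 := by
    intro i; generalize σ i = s; revert s; decide
  have five : ∀ i, τ i = 0 ∨ τ i = 1 ∨ τ i = 2 ∨ τ i = 3 ∨ τ i = 4 := by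
    intro i; generalize τ i = s; revert s; decide
  obtain ⟨m1, m2, m3, m4, m5, m6⟩ := mem_Tof lo hi σ τ
  have hidb : ∀ b, repb = some b → rep b = some b := by
    intro b h
    rw [hrepb] at h
    cases hlo : lo
    · rw [hlo] at h
      simp only [Bool.false_eq_true, if_false, Option.some.injEq] at h
      rw [← h, Rb, hrepb, hlo]; simp
    · rw [hlo] at h; simp at h
  have hidt : ∀ b, rept = some b → rep b = some b := by
    intro b h
    rw [hrept] at h
    cases hlo : hi
    · rw [hlo] at h
      simp only [Bool.false_eq_true, if_false, Option.some.injEq] at h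
      rw [← h, Rt, hrept, hlo]; simp
    · rw [hlo] at h; simp at h
  have hidv : ∀ i b, rv i = some b → rep b = some b := by
    intro i b h
    rcases tri i with h0 | h1 | h2
    · rw [rv0 i h0] at h; exact hidb b h
    · rw [rv1 i h1] at h
      simp only [Option.some.injEq] at h
      rw [← h, Rv, rv1 _ (hσr i h1), hr2 _ (hr1 i h1)]
    · rw [rv2 i h2] at h; exact hidt b h
  rw [finrank_rep _ rep]
  · rw [card_face, flagDim, core, Finset.sum_add_distrib]
    have e1 : (if rep .bot = some .bot then 1 else 0) = (if lo then 0 else 1) := by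
      rw [Rb, hrepb]; cases lo <;> simp
    have e2 : (if rep .top = some .top then 1 else 0) = (if hi then 0 else 1) := by
      rw [Rt, hrept]; cases hi <;> simp
    have nb : ∀ a : Face n, a ≠ .bot → ¬ (repb = some a) := by
      intro a ha h; rw [hrepb] at h
      split_ifs at h
      simp only [Option.some.injEq] at h; exact ha h.symm
    have nt : ∀ a : Face n, a ≠ .top → ¬ (rept = some a) := by
      intro a ha h; rw [hrept] at h
      split_ifs at h
      simp only [Option.some.injEq] at h; exact ha h.symm
    have e3 : ∀ i : ZMod n, (rep (.vert i) = some (.vert i)) ↔ (σ i = 1 ∧ τ i ≠ 0) := by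
      intro i
      rw [Rv]
      rcases tri i with h0 | h1 | h2
      · rw [rv0 i h0, h0]
        constructor
        · intro h; exact absurd h (nb _ (by simp))
        · intro h; exact absurd h.1 (by decide)
      · rw [rv1 i h1]
        constructor
        · intro h
          simp only [Option.some.injEq, Face.vert.injEq] at h
          refine ⟨h1, ?_⟩
          have := hr1 i h1
          rwa [h] at this
        · rintro ⟨_, h⟩
          rw [hr2 i h]
      · rw [rv2 i h2, h2]
        constructor
        · intro h; exact absurd h (nt _ (by simp))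
        · intro h; exact absurd h.1 (by decide)
    have nrv : ∀ i j : ZMod n, ¬ (rv i = some (.edge j)) := by
      intro i j h
      rcases tri i with h0 | h1 | h2
      · rw [rv0 i h0] at h; exact nb _ (by simp) h
      · rw [rv1 i h1] at h; simp at h
      · rw [rv2 i h2] at h; exact nt _ (by simp) h
    have e4 : ∀ i : ZMod n, (rep (.edge i) = some (.edge i)) ↔ τ i = 3 := by
      intro i
      rw [Re]
      rcases five i with h | h | h | h | h
      · rw [re0 i h, h]
        constructor
        · intro h'; exact absurd h' (nrv _ _)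
        · intro h'; exact absurd h' (by decide)
      · rw [re1 i h, h]
        constructor
        · intro h'; exact absurd h' (nrv _ _)
        · intro h'; exact absurd h' (by decide)
      · rw [re2 i h, h]
        constructor
        · intro h'; exact absurd h' (nrv _ _)
        · intro h'; exact absurd h' (by decide)
      · rw [re3 i h, h]; simp
      · rw [re4 i h, h]
        constructor
        · intro h'; exact absurd h' (nt _ (by simp))
        · intro h'; exact absurd h' (by decide)
    rw [e1, e2]
    simp only [e3, e4]
  · intro a b h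
    cases a with
    | bot => rw [Rb] at h; exact hidb b h
    | top => rw [Rt] at h; exact hidt b h
    | vert i => rw [Rv] at h; exact hidv i b h
    | edge i =>
      rw [Re] at h
      rcases five i with h' | h' | h' | h' | h'
      · rw [re0 i h'] at h; exact hidv i b h
      · rw [re1 i h'] at h; exact hidv i b h
      · rw [re2 i h'] at h; exact hidv _ b h
      · rw [re3 i h'] at h
        simp only [Option.some.injEq] at h
        rw [← h, Re, re3 i h']
      · rw [re4 i h'] at h; exact hidt b h
  · intro δ
    rw [mem_dirn']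
    constructor
    · rintro ⟨h1, h2, h3, h4, h5, h6⟩
      have Db : δ .bot = repb.elim 0 δ := by
        rw [hrepb]
        cases hlo : lo
        · simp
        · simp only [if_true, Option.elim_none]; exact h1 (m1.2 hlo)
      have Dt : δ .top = rept.elim 0 δ := by
        rw [hrept]
        cases hhi : hi
        · simp
        · simp only [if_true, Option.elim_none]; exact h6 (m2.2 hhi)
      have Dv : ∀ i, δ (.vert i) = (rv i).elim 0 δ := by
        intro i
        rcases tri i with h0 | h1' | h2'
        · rw [rv0 i h0, h2 i ((m3 i).2 h0)]; exact Db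
        · rw [rv1 i h1', Option.elim_some]
          refine hr4 (fun j => δ (.vert i) = δ (.vert j)) ?_ i h1' rfl
          intro j hj _ hj0
          rw [hj, h3 j ((m4 j).2 (Or.inl hj0)), h4 j ((m5 j).2 (Or.inl hj0))]
        · have hc : τ i = 4 := by
            rcases hok i with ⟨_, hs⟩ | ⟨_, hs, _⟩ | ⟨_, hs, _⟩ | ⟨_, hs, _⟩ | hc
            · rcases hs with ⟨hs, _⟩ | ⟨hs, _⟩
              · rw [h2'] at hs; exact absurd hs (by decide)
              · rw [h2'] at hs; exact absurd hs (by decide)
            · rw [h2'] at hs; exact absurd hs (by decide)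
            · exact absurd h2' hs
            · exact absurd h2' hs
            · exact hc
          rw [rv2 i h2', h3 i ((m4 i).2 (Or.inr (Or.inr ⟨hc, h2'⟩))), h5 i ((m6 i).2 hc)]
          exact Dt
      intro a
      cases a with
      | bot => rw [Rb]; exact Db
      | top => rw [Rt]; exact Dt
      | vert i => rw [Rv]; exact Dv i
      | edge i =>
        rw [Re]
        rcases five i with h' | h' | h' | h' | h'
        · rw [re0 i h', ← h3 i ((m4 i).2 (Or.inl h'))]; exact Dv i
        · rw [re1 i h', ← h3 i ((m4 i).2 (Or.inr (Or.inl h')))]; exact Dv i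
        · rw [re2 i h', ← h4 i ((m5 i).2 (Or.inr (Or.inl h')))]; exact Dv _
        · rw [re3 i h', Option.elim_some]
        · rw [re4 i h', h5 i ((m6 i).2 h')]; exact Dt
    · intro h
      refine ⟨fun hm => ?_, fun i hm => ?_, fun i hm => ?_, fun i hm => ?_, fun i hm => ?_,
        fun hm => ?_⟩
      · have := h .bot
        rw [Rb, hrepb, if_pos (m1.1 hm)] at this
        exact this
      · rw [h (.vert i), h .bot, Rv, Rb, rv0 i ((m3 i).1 hm)]
      · rw [h (.vert i), h (.edge i), Rv, Re]
        rcases (m4 i).1 hm with h' | h' | ⟨h', h''⟩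
        · rw [re0 i h']
        · rw [re1 i h']
        · rw [re4 i h', rv2 i h'']
      · rw [h (.vert (i + 1)), h (.edge i), Rv, Re]
        rcases (m5 i).1 hm with h' | h' | ⟨h', h''⟩
        · rw [re0 i h']
          have hs : (σ i = 0 ∧ σ (i + 1) = 0) ∨ (σ i = 1 ∧ σ (i + 1) = 1) := by
            rcases hok i with ⟨_, hs⟩ | ⟨hc, _⟩ | ⟨hc, _⟩ | ⟨hc, _⟩ | hc
            · exact hs
            · rw [h'] at hc; exact absurd hc (by decide)
            · rw [h'] at hc; exact absurd hc (by decide)
            · rw [h'] at hc; exact absurd hc (by decide)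
            · rw [h'] at hc; exact absurd hc (by decide)
          rcases hs with ⟨a, b⟩ | ⟨a, b⟩
          · rw [rv0 _ a, rv0 _ b]
          · rw [rv1 _ a, rv1 _ b, hr3 i a h']
        · rw [re2 i h']
        · rw [re4 i h', rv2 _ h'']
      · rw [h (.edge i), h .top, Re, Rt, re4 i ((m6 i).1 hm)]
      · have := h .top
        rw [Rt, hrept, if_pos (m2.1 hm)] at this
        exact this

/-- in an `ok` pattern either all codes are `0` and the status is constant, or some code is not -/
theorem const_of_all_zero {σ : ZMod n → Fin 3} {τ : ZMod n → Fin 5} (hok : ok σ τ)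
    (h : ∀ i, τ i = 0) : (∀ i, σ i = 0) ∨ ∀ i, σ i = 1 := by
  have step : ∀ i, (σ i = 0 ∧ σ (i + 1) = 0) ∨ (σ i = 1 ∧ σ (i + 1) = 1) := by
    intro i
    rcases hok i with ⟨_, hs⟩ | ⟨hc, _⟩ | ⟨hc, _⟩ | ⟨hc, _⟩ | hc
    · exact hs
    · rw [h] at hc; exact absurd hc (by decide)
    · rw [h] at hc; exact absurd hc (by decide)
    · rw [h] at hc; exact absurd hc (by decide)
    · rw [h] at hc; exact absurd hc (by decide)
  have hk : ∀ k : ℕ, σ (k : ZMod n) = σ 0 := by
    intro k
    induction k with
    | zero => rw [Nat.cast_zero]
    | succ k ih =>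
      rw [Nat.cast_succ]
      rcases step (k : ZMod n) with ⟨a, b⟩ | ⟨a, b⟩
      · rw [b, ← a, ih]
      · rw [b, ← a, ih]
  have hk' : ∀ i, σ i = σ 0 := by
    intro i
    have := hk i.val
    rwa [ZMod.natCast_zmod_val] at this
  rcases step 0 with ⟨a, _⟩ | ⟨a, _⟩
  · left; intro i; rw [hk', a]
  · right; intro i; rw [hk', a]

open Classical in
/-- **dimension of a pattern** -/
theorem dim_pat (lo hi : Bool) {σ : ZMod n → Fin 3} {τ : ZMod n → Fin 5} (hok : ok σ τ) :
    Module.finrank ℝ (dirn (cf n) (Tof lo hi σ τ)) =
      flagDim lo hi + (if (∀ i, σ i = 1) ∧ ∀ i, τ i = 0 then 1 else core σ τ) := by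
  by_cases hall : (∀ i, σ i = 1) ∧ ∀ i, τ i = 0
  · rw [if_pos hall]
    exact dim_all lo hi hall.1 hall.2
  · rw [if_neg hall]
    apply dim_core lo hi hok hall
    by_cases hz : ∃ i, τ i ≠ 0
    · exact Or.inl hz
    · push Not at hz
      rcases const_of_all_zero hok hz with h | h
      · exact Or.inr h
      · exact absurd ⟨h, hz⟩ hall

/-- the tight set of a point with equal bottom and top values -/
def T0 (n : ℕ) (lo hi : Bool) : Set (Ineq n) := fun j =>
  match j with
  | .lo => lo = true
  | .hi => hi = true
  | _ => True

theorem dim_T0 (lo hi : Bool) :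
    Module.finrank ℝ (dirn (cf n) (T0 n lo hi)) = if lo || hi then 0 else 1 := by
  classical
  set rep : Face n → Option (Face n) := fun _ => if lo || hi then none else some .bot with hrep
  rw [finrank_rep _ rep]
  · rw [card_face]
    cases hlh : lo || hi
    · have e1 : ∀ a, rep a = some .bot := by intro a; simp [hrep, hlh]
      simp [e1]
    · have e1 : ∀ a, rep a = none := by intro a; simp [hrep, hlh]
      simp [e1]
  · intro a b h
    have : rep b = rep a := rfl
    rw [this, h]
  · intro δ
    rw [mem_dirn']
    constructor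
    · rintro ⟨h1, h2, h3, h4, h5, h6⟩
      have hv : ∀ i, δ (.vert i) = δ .bot := fun i => h2 i trivial
      have he : ∀ i, δ (.edge i) = δ .bot := fun i => by rw [← h3 i trivial, hv]
      have ht : δ .top = δ .bot := by rw [← h5 0 trivial, he]
      have hall : ∀ a, δ a = δ .bot := by
        intro a; cases a with
        | bot => rfl
        | top => exact ht
        | vert i => exact hv i
        | edge i => exact he i
      intro a
      rw [hall a]
      cases hlo : lo
      · cases hhi : hi
        · simp [hrep, hlo, hhi]
        · have : δ .bot = 0 := by rw [← ht]; exact h6 hhi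
          simp [hrep, hlo, hhi, this]
      · have : δ .bot = 0 := h1 hlo
        simp [hrep, hlo, this]
    · intro h
      have hall : ∀ a b, δ a = δ b := by
        intro a b
        rw [h a, h b]
      refine ⟨fun hm => ?_, fun i _ => hall _ _, fun i _ => hall _ _, fun i _ => hall _ _,
        fun i _ => hall _ _, fun hm => ?_⟩
      · have hlo : lo = true := hm
        have := h .bot
        rw [hrep] at this
        simpa [hlo] using this
      · have hhi : hi = true := hm
        have := h .top
        rw [hrep] at this
        simpa [hhi] using this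

end Q151.CrownF
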