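import Pool.Agent.Q151.CrownF.Trace

/-!
Log-concavity for products of linear factors, and the factorisation of `LL n - 2`.
-/

namespace Q151.CrownF

open Finset Polynomial

/-- coefficients positive up to `d`, zero beyond, and the Newton type inequality. -/
structure NL (d : ℕ) (p : ℝ[X]) : Prop where
  pos : ∀ i, i ≤ d → 0 < p.coeff i
  zero : ∀ i, d < i → p.coeff i = 0
  newton : ∀ i : ℕ, ((i : ℝ) + 2) * (p.coeff i * p.coeff (i + 2)) ≤ ((i : ℝ) + 1) * p.coeff (i + 1) ^ 2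
  one : p.coeff 1 ≤ d * p.coeff 0

theorem NL.nonneg {d : ℕ} {p : ℝ[X]} (h : NL d p) (i : ℕ) : 0 ≤ p.coeff i := by
  rcases Nat.lt_or_ge d i with h' | h'
  · rw [h.zero i h']
  · exact (h.pos i h').le

theorem NL_one : NL 0 (1 : ℝ[X]) := by
  refine ⟨?_, ?_, ?_, ?_⟩
  · intro i hi
    obtain rfl : i = 0 := by omega
    simp
  · intro i hi
    rw [Polynomial.coeff_one, if_neg (by omega)]
  · intro i
    rw [Polynomial.coeff_one, Polynomial.coeff_one, Polynomial.coeff_one]
    simp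
  · simp [Polynomial.coeff_one]

/-- real-number core of the multiplication step -/
theorem step_ineq {i p q r s a : ℝ} (hi : 0 ≤ i) (ha : 0 ≤ a) (hp : 0 ≤ p) (hq : 0 ≤ q)
    (hr : 0 ≤ r) (hs : 0 ≤ s) (h1 : (i + 2) * (q * s) ≤ (i + 1) * r ^ 2)
    (h2 : (i + 1) * (p * r) ≤ i * q ^ 2) (hz : q = 0 ∨ r = 0 → s = 0) :
    (i + 2) * ((a * q + p) * (a * s + r)) ≤ (i + 1) * (a * r + q) ^ 2 := by
  have cross : (i + 2) * (p * s) ≤ i * (q * r) := by
    by_cases hqr : q = 0 ∨ r = 0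
    · rw [hz hqr]
      simp only [mul_zero]
      positivity
    · push Not at hqr
      have hq' : 0 < q := lt_of_le_of_ne hq (Ne.symm hqr.1)
      have hr' : 0 < r := lt_of_le_of_ne hr (Ne.symm hqr.2)
      have hqr' : 0 < (i + 1) * (q * r) := by positivity
      have h3 : ((i + 2) * (q * s)) * ((i + 1) * (p * r)) ≤ ((i + 1) * r ^ 2) * (i * q ^ 2) :=
        mul_le_mul h1 h2 (by positivity) (by positivity)
      have h4 : ((i + 2) * (p * s)) * ((i + 1) * (q * r)) ≤ (i * (q * r)) * ((i + 1) * (q * r)) := by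
        nlinarith
      exact le_of_mul_le_mul_right h4 hqr'
  have const : (i + 2) * (p * r) ≤ (i + 1) * q ^ 2 := by
    have h5 : (i + 1) * ((i + 2) * (p * r)) ≤ (i + 1) * ((i + 1) * q ^ 2) := by
      have h6 := mul_le_mul_of_nonneg_left h2 (show (0 : ℝ) ≤ i + 2 by linarith)
      nlinarith [sq_nonneg q]
    exact le_of_mul_le_mul_left h5 (by linarith)
  have A := mul_le_mul_of_nonneg_left h1 (sq_nonneg a)
  have B := mul_le_mul_of_nonneg_left cross ha
  nlinarith

theorem NL.mul {d : ℕ} {p : ℝ[X]} (h : NL d p) {a : ℝ} (ha : 1 ≤ a) :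
    NL (d + 1) ((X + C a) * p) := by
  have ha0 : 0 < a := by linarith
  have c0 : ((X + C a) * p).coeff 0 = a * p.coeff 0 := by
    rw [add_mul, coeff_add, coeff_X_mul_zero, coeff_C_mul, zero_add]
  have cs : ∀ i, ((X + C a) * p).coeff (i + 1) = a * p.coeff (i + 1) + p.coeff i := by
    intro i
    rw [add_mul, coeff_add, coeff_X_mul, coeff_C_mul, add_comm]
  refine ⟨?_, ?_, ?_, ?_⟩
  · intro i hi
    rcases i with _ | i
    · rw [c0]; exact mul_pos ha0 (h.pos 0 (by omega))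
    · rw [cs]
      have := h.nonneg (i + 1)
      have h2 := h.pos i (by omega)
      positivity
  · intro i hi
    obtain ⟨j, rfl⟩ : ∃ j, i = j + 1 := ⟨i - 1, by omega⟩
    rw [cs, h.zero _ (by omega), h.zero _ (by omega)]
    ring
  · intro i
    have hz : p.coeff i = 0 ∨ p.coeff (i + 1) = 0 → p.coeff (i + 2) = 0 := by
      rintro (h' | h')
      · apply h.zero
        by_contra hc
        have := h.pos i (by omega)
        rw [h'] at this
        exact lt_irrefl _ this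
      · apply h.zero
        by_contra hc
        have := h.pos (i + 1) (by omega)
        rw [h'] at this
        exact lt_irrefl _ this
    rcases i with _ | i
    · rw [c0, cs, cs]
      have := step_ineq (i := 0) (p := 0) le_rfl ha0.le le_rfl (h.nonneg 0) (h.nonneg 1)
        (h.nonneg 2) (by simpa using h.newton 0) (by simp) hz
      simpa using this
    · rw [cs, cs, cs]
      have h1 := h.newton (i + 1)
      have h2 := h.newton i
      have := step_ineq (i := (i : ℝ) + 1) (by positivity) ha0.le (h.nonneg i) (h.nonneg (i + 1))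
        (h.nonneg (i + 2)) (h.nonneg (i + 3)) (by push_cast at h1; exact h1) (by
          have e : (i : ℝ) + 1 + 1 = i + 2 := by ring
          rw [e]; exact h2) hz
      push_cast
      exact this
  · rw [c0, cs 0]
    have h1 := h.one
    have h2 := h.nonneg 0
    have h3 := mul_le_mul_of_nonneg_left h1 ha0.le
    push_cast
    nlinarith

theorem NL_prod {ι : Type*} (s : Finset ι) (a : ι → ℝ) (ha : ∀ i, 1 ≤ a i) {d : ℕ} {p : ℝ[X]}
    (h : NL d p) : NL (s.card + d) ((∏ i ∈ s, (X + C (a i))) * p) := by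
  classical
  induction s using Finset.induction_on with
  | empty => simpa using h
  | insert i s hi ih =>
    rw [Finset.prod_insert hi, Finset.card_insert_of_notMem hi, mul_assoc]
    have := ih.mul (ha i)
    have e : s.card + 1 + d = s.card + d + 1 := by ring
    rw [e]
    exact this

/-- the numbers `3 - 2 cos(2 π k / n)` -/
noncomputable def rho (n k : ℕ) : ℝ := 3 - 2 * Real.cos (2 * Real.pi * k / n)

theorem rho_ge (n k : ℕ) : 1 ≤ rho n k := by
  unfold rho
  linarith [Real.cos_le_one (2 * Real.pi * k / n)]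

theorem LL_eval {t μ : ℝ} (hμ : μ ≠ 0) (h : μ + μ⁻¹ = t + 3) (n : ℕ) :
    (LL n).eval t = μ ^ n + (μ⁻¹) ^ n := by
  induction n using Nat.strong_induction_on with
  | _ n ih =>
    match n with
    | 0 => simp [LL]; norm_num
    | 1 => simp [LL]; linarith
    | m + 2 =>
      rw [show LL (m + 2) = (X + 3) * LL (m + 1) - LL m from rfl, eval_sub, eval_mul,
        ih (m + 1) (by omega), ih m (by omega)]
      simp only [eval_add, eval_X, eval_ofNat]
      rw [← h]
      have h1 : μ * μ⁻¹ = 1 := mul_inv_cancel₀ hμ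
      have e1 : μ ^ (m + 1) * μ⁻¹ = μ ^ m := by rw [pow_succ, mul_assoc, h1, mul_one]
      have e2 : (μ⁻¹) ^ (m + 1) * μ = (μ⁻¹) ^ m := by
        rw [pow_succ, mul_assoc, mul_comm μ⁻¹ μ, h1, mul_one]
      calc (μ + μ⁻¹) * (μ ^ (m + 1) + μ⁻¹ ^ (m + 1)) - (μ ^ m + μ⁻¹ ^ m)
          = μ ^ (m + 2) + μ⁻¹ ^ (m + 2) + (μ ^ (m + 1) * μ⁻¹ - μ ^ m) +
            ((μ⁻¹) ^ (m + 1) * μ - (μ⁻¹) ^ m) := by ring
        _ = μ ^ (m + 2) + μ⁻¹ ^ (m + 2) := by rw [e1, e2]; ring

/-- `∏ (μ² - 2 μ cos(2πk/n) + 1) = (μ^n - 1)²` -/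
theorem prod_cos (n : ℕ) (hn : 0 < n) (μ : ℝ) :
    ∏ k ∈ range n, (μ ^ 2 - 2 * μ * Real.cos (2 * Real.pi * k / n) + 1) = (μ ^ n - 1) ^ 2 := by
  set ζ : ℂ := Complex.exp (2 * Real.pi * Complex.I / n) with hζ
  have hprim : IsPrimitiveRoot ζ n := Complex.isPrimitiveRoot_exp n hn.ne'
  have hroots : nthRootsFinset n (1 : ℂ) = (range n).image (fun k => ζ ^ k) := by
    symm
    apply Finset.eq_of_subset_of_card_le
    · intro z hz
      obtain ⟨k, _, rfl⟩ := Finset.mem_image.1 hz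
      rw [mem_nthRootsFinset hn, ← pow_mul, mul_comm, pow_mul, hprim.pow_eq_one, one_pow]
    · rw [hprim.card_nthRootsFinset, Finset.card_image_of_injOn, Finset.card_range]
      intro i hi j hj h
      exact hprim.pow_inj (Finset.mem_range.1 hi) (Finset.mem_range.1 hj) h
  have hprod : (μ : ℂ) ^ n - 1 = ∏ k ∈ range n, ((μ : ℂ) - ζ ^ k) := by
    have h1 := X_pow_sub_one_eq_prod hn hprim
    rw [hroots, Finset.prod_image] at h1
    · have h2 := congrArg (Polynomial.eval (μ : ℂ)) h1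
      rw [eval_prod] at h2
      simpa using h2
    · intro i hi j hj h
      exact hprim.pow_inj (Finset.mem_range.1 hi) (Finset.mem_range.1 hj) h
  have hconj : (μ : ℂ) ^ n - 1 = ∏ k ∈ range n, ((μ : ℂ) - (starRingEnd ℂ) (ζ ^ k)) := by
    have h1 := congrArg (starRingEnd ℂ) hprod
    rw [map_prod] at h1
    simpa using h1
  have hterm : ∀ k ∈ range n, ((μ : ℂ) - ζ ^ k) * ((μ : ℂ) - (starRingEnd ℂ) (ζ ^ k)) =
      ((μ ^ 2 - 2 * μ * Real.cos (2 * Real.pi * k / n) + 1 : ℝ) : ℂ) := by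
    intro k _
    have hz : ζ ^ k = Complex.exp ((2 * Real.pi * k / n : ℝ) * Complex.I) := by
      rw [hζ, ← Complex.exp_nat_mul]
      congr 1
      push_cast
      ring
    have h1 : ζ ^ k * (starRingEnd ℂ) (ζ ^ k) = 1 := by
      rw [Complex.mul_conj, Complex.normSq_eq_norm_sq, hz, Complex.norm_exp_ofReal_mul_I]
      simp
    have h2 : ζ ^ k + (starRingEnd ℂ) (ζ ^ k) = ((2 * Real.cos (2 * Real.pi * k / n) : ℝ) : ℂ) := by
      rw [Complex.add_conj, hz, Complex.exp_ofReal_mul_I_re]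
    calc ((μ : ℂ) - ζ ^ k) * ((μ : ℂ) - (starRingEnd ℂ) (ζ ^ k))
        = (μ : ℂ) ^ 2 - μ * (ζ ^ k + (starRingEnd ℂ) (ζ ^ k)) + ζ ^ k * (starRingEnd ℂ) (ζ ^ k) := by
          ring
      _ = _ := by
          rw [h1, h2]
          push_cast
          ring
  have hfin : (((μ ^ n - 1) ^ 2 : ℝ) : ℂ) =
      ((∏ k ∈ range n, (μ ^ 2 - 2 * μ * Real.cos (2 * Real.pi * k / n) + 1) : ℝ) : ℂ) := by
    rw [Complex.ofReal_prod, ← Finset.prod_congr rfl hterm, Finset.prod_mul_distrib, ← hprod,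
      ← hconj]
    push_cast
    ring
  exact_mod_cast hfin.symm

theorem LL_factor (n : ℕ) (hn : 0 < n) : LL n - 2 = ∏ k ∈ range n, (X + C (rho n k)) := by
  apply Polynomial.eq_of_infinite_eval_eq
  apply Set.Infinite.mono (s := Set.Ici (0 : ℝ)) _ (Set.Ici_infinite 0)
  intro t ht
  have ht' : (0 : ℝ) ≤ t := ht
  -- choose mu
  obtain ⟨μ, hμ, hμe⟩ : ∃ μ : ℝ, μ ≠ 0 ∧ μ + μ⁻¹ = t + 3 := by
    have hD : 0 ≤ (t + 3) ^ 2 - 4 := by nlinarith
    set D := Real.sqrt ((t + 3) ^ 2 - 4) with hDef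
    have hD2 : D ^ 2 = (t + 3) ^ 2 - 4 := Real.sq_sqrt hD
    have hD0 : 0 ≤ D := Real.sqrt_nonneg _
    have hpos : 0 < (t + 3 + D) / 2 := by positivity
    refine ⟨(t + 3 + D) / 2, hpos.ne', ?_⟩
    have : ((t + 3 + D) / 2)⁻¹ = (t + 3 - D) / 2 := by
      rw [inv_eq_iff_eq_inv, eq_comm, inv_eq_iff_eq_inv]
      rw [eq_comm, inv_eq_of_mul_eq_one_left]
      nlinarith
    rw [this]; ring
  show (LL n - 2).eval t = (∏ k ∈ range n, (X + C (rho n k))).eval t
  rw [eval_sub, LL_eval hμ hμe, eval_prod]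
  simp only [eval_ofNat, eval_add, eval_X, eval_C]
  have h1 := prod_cos n hn μ
  have h2 : ∀ k ∈ range n, t + rho n k =
      μ⁻¹ * (μ ^ 2 - 2 * μ * Real.cos (2 * Real.pi * k / n) + 1) := by
    intro k _
    rw [rho]
    have : t + (3 - 2 * Real.cos (2 * Real.pi * k / n)) =
        (t + 3) - 2 * Real.cos (2 * Real.pi * k / n) := by ring
    rw [this, ← hμe]
    field_simp
    ring
  rw [Finset.prod_congr rfl h2, Finset.prod_mul_distrib, h1, Finset.prod_const, Finset.card_range]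
  have h3 : μ⁻¹ ^ n * μ ^ n = 1 := by rw [← mul_pow, inv_mul_cancel₀ hμ, one_pow]
  have h4 : μ⁻¹ ^ n * (μ ^ n - 1) ^ 2 = (μ⁻¹ ^ n * μ ^ n) * μ ^ n - 2 * (μ⁻¹ ^ n * μ ^ n) + μ⁻¹ ^ n := by
    ring
  rw [h4, h3]; ring

/-- lower bound for the constant term -/
theorem LL_zero_ge (n : ℕ) (hn : 3 ≤ n) : (6 * n : ℝ) ≤ (LL n).eval 0 := by
  have hrec : ∀ m, (LL (m + 2)).eval 0 = 3 * (LL (m + 1)).eval 0 - (LL m).eval 0 := by
    intro m
    rw [show LL (m + 2) = (X + 3) * LL (m + 1) - LL m from rfl]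
    simp
  have e0 : (LL 0).eval 0 = 2 := by simp [LL]
  have e1 : (LL 1).eval 0 = 3 := by simp [LL]
  have grow : ∀ m, 3 ≤ (LL (m + 1)).eval 0 ∧ 2 * (LL (m + 1)).eval 0 ≤ (LL (m + 2)).eval 0 := by
    intro m
    induction m with
    | zero =>
      have := hrec 0
      rw [e0, e1] at this
      rw [e1]
      constructor
      · exact le_rfl
      · rw [this]; norm_num
    | succ m ih =>
      have := hrec (m + 1)
      refine ⟨by linarith [ih.1, ih.2], ?_⟩
      rw [this]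
      linarith [ih.1, ih.2]
  induction n, hn using Nat.le_induction with
  | base =>
    have h2 := hrec 0
    have h3 := hrec 1
    rw [e0, e1] at h2
    rw [h2, e1] at h3
    rw [h3]; norm_num
  | succ m hm ih =>
    have h := (grow (m - 1)).2
    have e : m - 1 + 1 = m := by omega
    have e' : m - 1 + 2 = m + 1 := by omega
    rw [e, e'] at h
    have hm' : (3 : ℝ) ≤ m := by exact_mod_cast hm
    push_cast
    linarith

end Q151.CrownF
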