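import Pool.Agent.Q151.CrownF.Base

/-!
Tight sets of points of the order polytope as patterns.
-/

namespace Q151.CrownF

open Finset Pool.Agent.W304.HL

/-- Statuses `0,1,2`: equal to the bottom value, strictly between, equal to the top value.
Codes: `0` both equalities `v_i = e_i = v_{i+1}`, `1` only `v_i = e_i`, `2` only `v_{i+1} = e_i`,
`3` no equality, `4` edge value equal to the top value. -/
def allowed (s : Fin 3) (c : Fin 5) (s' : Fin 3) : Prop :=
  (c = 0 ∧ ((s = 0 ∧ s' = 0) ∨ (s = 1 ∧ s' = 1))) ∨ (c = 1 ∧ s = 1 ∧ s' ≠ 2) ∨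
  (c = 2 ∧ s ≠ 2 ∧ s' = 1) ∨ (c = 3 ∧ s ≠ 2 ∧ s' ≠ 2) ∨ c = 4

instance (s : Fin 3) (c : Fin 5) (s' : Fin 3) : Decidable (allowed s c s') := by
  unfold allowed; infer_instance

/-- `v_i = e_i` -/
def eqA (s : Fin 3) (c : Fin 5) : Prop := c = 0 ∨ c = 1 ∨ (c = 4 ∧ s = 2)

/-- `v_{i+1} = e_i` -/
def eqB (c : Fin 5) (u : Fin 3) : Prop := c = 0 ∨ c = 2 ∨ (c = 4 ∧ u = 2)

instance (s : Fin 3) (c : Fin 5) : Decidable (eqA s c) := by unfold eqA; infer_instance

instance (c : Fin 5) (u : Fin 3) : Decidable (eqB c u) := by unfold eqB; infer_instance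

theorem key1 : ∀ (s s' : Fin 3) (c c' : Fin 5) (u u' : Fin 3), allowed s c u → allowed s' c' u' →
    (s = 0 ↔ s' = 0) → (c = 4 ↔ c' = 4) → (eqA s c ↔ eqA s' c') → s = s' := by
  decide

theorem key2 : ∀ (s : Fin 3) (c c' : Fin 5) (u : Fin 3), allowed s c u → allowed s c' u →
    (c = 4 ↔ c' = 4) → (eqA s c ↔ eqA s c') → (eqB c u ↔ eqB c' u) → c = c' := by
  decide

variable {n : ℕ}

/-- locally consistent -/
def ok (σ : ZMod n → Fin 3) (τ : ZMod n → Fin 5) : Prop := ∀ i, allowed (σ i) (τ i) (σ (i + 1))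

/-- not realisable -/
def bad (σ : ZMod n → Fin 3) (τ : ZMod n → Fin 5) : Prop :=
  (∀ i, σ i = 1) ∧ (∃ i, τ i ≠ 0) ∧ ((∀ i, τ i = 0 ∨ τ i = 1) ∨ (∀ i, τ i = 0 ∨ τ i = 2))

/-- the tight set of a pattern -/
def Tof (lo hi : Bool) (σ : ZMod n → Fin 3) (τ : ZMod n → Fin 5) : Set (Ineq n) := fun j =>
  match j with
  | .lo => lo = true
  | .hi => hi = true
  | .Z i => σ i = 0
  | .A i => τ i = 0 ∨ τ i = 1 ∨ (τ i = 4 ∧ σ i = 2)
  | .B i => τ i = 0 ∨ τ i = 2 ∨ (τ i = 4 ∧ σ (i + 1) = 2)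
  | .C i => τ i = 4

theorem mem_Tof (lo hi : Bool) (σ : ZMod n → Fin 3) (τ : ZMod n → Fin 5) :
    (Ineq.lo ∈ Tof lo hi σ τ ↔ lo = true) ∧ (Ineq.hi ∈ Tof lo hi σ τ ↔ hi = true) ∧
    (∀ i, Ineq.Z i ∈ Tof lo hi σ τ ↔ σ i = 0) ∧
    (∀ i, Ineq.A i ∈ Tof lo hi σ τ ↔ τ i = 0 ∨ τ i = 1 ∨ (τ i = 4 ∧ σ i = 2)) ∧
    (∀ i, Ineq.B i ∈ Tof lo hi σ τ ↔ τ i = 0 ∨ τ i = 2 ∨ (τ i = 4 ∧ σ (i + 1) = 2)) ∧
    (∀ i, Ineq.C i ∈ Tof lo hi σ τ ↔ τ i = 4) :=
  ⟨Iff.rfl, Iff.rfl, fun _ => Iff.rfl, fun _ => Iff.rfl, fun _ => Iff.rfl, fun _ => Iff.rfl⟩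

theorem Tof_inj {lo hi lo' hi' : Bool} {σ σ' : ZMod n → Fin 3} {τ τ' : ZMod n → Fin 5}
    (h : ok σ τ) (h' : ok σ' τ') (hT : Tof lo hi σ τ = Tof lo' hi' σ' τ') :
    lo = lo' ∧ hi = hi' ∧ σ = σ' ∧ τ = τ' := by
  have m := mem_Tof lo hi σ τ
  have m' := mem_Tof lo' hi' σ' τ'
  rw [← hT] at m'
  obtain ⟨m1, m2, m3, m4, m5, m6⟩ := m
  obtain ⟨n1, n2, n3, n4, n5, n6⟩ := m'
  have e1 : (lo = true ↔ lo' = true) := m1.symm.trans n1
  have e2 : (hi = true ↔ hi' = true) := m2.symm.trans n2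
  have e3 : ∀ i, (σ i = 0 ↔ σ' i = 0) := fun i => (m3 i).symm.trans (n3 i)
  have e4 := fun i => (m4 i).symm.trans (n4 i)
  have e5 := fun i => (m5 i).symm.trans (n5 i)
  have e6 : ∀ i, (τ i = 4 ↔ τ' i = 4) := fun i => (m6 i).symm.trans (n6 i)
  have hσ : σ = σ' := by
    funext i
    exact key1 _ _ _ _ _ _ (h i) (h' i) (e3 i) (e6 i) (e4 i)
  subst hσ
  refine ⟨by revert e1; cases lo <;> cases lo' <;> simp, by revert e2; cases hi <;> cases hi' <;> simp,
    rfl, ?_⟩
  funext i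
  exact key2 _ _ _ _ (h i) (h' i) (e6 i) (e4 i) (e5 i)

variable [NeZero n]

/-- the pattern of a point -/
theorem exists_pat {x : Face n → ℝ} (hx : x ∈ poly (cf n) (df n)) (hbt : x .bot < x .top) :
    ∃ (lo hi : Bool) (σ : ZMod n → Fin 3) (τ : ZMod n → Fin 5), ok σ τ ∧ ¬ bad σ τ ∧
      tight (cf n) (df n) x = Tof lo hi σ τ := by
  classical
  rw [mem_poly] at hx
  obtain ⟨h1, h2, h3, h4, h5, h6⟩ := hx
  obtain ⟨t1, t2, t3, t4, t5, t6⟩ := mem_tight x
  set σ : ZMod n → Fin 3 := fun i =>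
    if x (.vert i) = x .bot then 0 else if x (.vert i) = x .top then 2 else 1 with hσ
  set τ : ZMod n → Fin 5 := fun i =>
    if x (.edge i) = x .top then 4 else
      if x (.vert i) = x (.edge i) then (if x (.vert (i + 1)) = x (.edge i) then 0 else 1)
      else if x (.vert (i + 1)) = x (.edge i) then 2 else 3 with hτ
  have s0 : ∀ i, σ i = 0 ↔ x (.vert i) = x .bot := by
    intro i; simp only [hσ]; split_ifs with a b <;> simp [a]
  have s2 : ∀ i, σ i = 2 ↔ x (.vert i) = x .top := by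
    intro i; simp only [hσ]; split_ifs with a b
    · simp only [show ((0 : Fin 3) = 2) ↔ False by decide, false_iff]
      rw [a]; exact hbt.ne
    · simp [b]
    · simp [b]
  have s1 : ∀ i, σ i = 1 ↔ (x (.vert i) ≠ x .bot ∧ x (.vert i) ≠ x .top) := by
    intro i; simp only [hσ]; split_ifs with a b
    · simp [a]
    · simp [b]
    · simp [a, b]
  have c4 : ∀ i, τ i = 4 ↔ x (.edge i) = x .top := by
    intro i; simp only [hτ]; split_ifs with a b c d <;> simp [a]
  have c0 : ∀ i, τ i = 0 ↔ (x (.edge i) ≠ x .top ∧ x (.vert i) = x (.edge i) ∧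
      x (.vert (i + 1)) = x (.edge i)) := by
    intro i; simp only [hτ]; split_ifs with a b c d <;> simp_all
  have c1 : ∀ i, τ i = 1 ↔ (x (.edge i) ≠ x .top ∧ x (.vert i) = x (.edge i) ∧
      x (.vert (i + 1)) ≠ x (.edge i)) := by
    intro i; simp only [hτ]; split_ifs with a b c d <;> simp_all
  have c2 : ∀ i, τ i = 2 ↔ (x (.edge i) ≠ x .top ∧ x (.vert i) ≠ x (.edge i) ∧
      x (.vert (i + 1)) = x (.edge i)) := by
    intro i; simp only [hτ]; split_ifs with a b c d <;> simp_all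
  have c3 : ∀ i, τ i = 3 ↔ (x (.edge i) ≠ x .top ∧ x (.vert i) ≠ x (.edge i) ∧
      x (.vert (i + 1)) ≠ x (.edge i)) := by
    intro i; simp only [hτ]; split_ifs with a b c d <;> simp_all
  refine ⟨decide (x .bot = 0), decide (x .top = 1), σ, τ, ?_, ?_, ?_⟩
  · intro i
    unfold allowed
    by_cases he : x (.edge i) = x .top
    · exact Or.inr (Or.inr (Or.inr (Or.inr ((c4 i).2 he))))
    have helt : x (.edge i) < x .top := lt_of_le_of_ne (h5 i) he
    have hv2 : σ i ≠ 2 := by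
      intro h; have := (s2 i).1 h; have := h3 i; linarith
    have hv2' : σ (i + 1) ≠ 2 := by
      intro h; have := (s2 (i + 1)).1 h; have := h4 i; linarith
    by_cases ha : x (.vert i) = x (.edge i)
    · by_cases hb : x (.vert (i + 1)) = x (.edge i)
      · left
        refine ⟨(c0 i).2 ⟨he, ha, hb⟩, ?_⟩
        by_cases h0 : x (.edge i) = x .bot
        · left; exact ⟨(s0 i).2 (by rw [ha, h0]), (s0 (i + 1)).2 (by rw [hb, h0])⟩
        · right
          refine ⟨(s1 i).2 ⟨by rw [ha]; exact h0, by rw [ha]; exact he⟩,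
            (s1 (i + 1)).2 ⟨by rw [hb]; exact h0, by rw [hb]; exact he⟩⟩
      · right; left
        refine ⟨(c1 i).2 ⟨he, ha, hb⟩, (s1 i).2 ⟨?_, by rw [ha]; exact he⟩, hv2'⟩
        intro h
        have h7 := h4 i
        have h8 := h2 (i + 1)
        apply hb
        linarith
    · by_cases hb : x (.vert (i + 1)) = x (.edge i)
      · right; right; left
        refine ⟨(c2 i).2 ⟨he, ha, hb⟩, hv2, (s1 (i + 1)).2 ⟨?_, by rw [hb]; exact he⟩⟩
        intro h
        have h7 := h3 i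
        have h8 := h2 i
        apply ha
        linarith
      · right; right; right; left
        exact ⟨(c3 i).2 ⟨he, ha, hb⟩, hv2, hv2'⟩
  · rintro ⟨-, ⟨j, hj⟩, hall | hall⟩
    · have hA : ∀ i, x (.vert i) = x (.edge i) := by
        intro i
        rcases hall i with h | h
        · exact ((c0 i).1 h).2.1
        · exact ((c1 i).1 h).2.1
      have hle : ∀ i ∈ (Finset.univ : Finset (ZMod n)), x (.vert (i + 1)) ≤ x (.vert i) := by
        intro i _; rw [hA i]; exact h4 i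
      have hsum : ∑ i : ZMod n, x (.vert (i + 1)) = ∑ i : ZMod n, x (.vert i) :=
        Fintype.sum_equiv (Equiv.addRight 1) _ _ fun i => rfl
      have heq := (Finset.sum_eq_sum_iff_of_le hle).1 hsum j (Finset.mem_univ j)
      rcases hall j with h | h
      · exact hj h
      · exact ((c1 j).1 h).2.2 (by rw [heq, hA])
    · have hB : ∀ i, x (.vert (i + 1)) = x (.edge i) := by
        intro i
        rcases hall i with h | h
        · exact ((c0 i).1 h).2.2
        · exact ((c2 i).1 h).2.2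
      have hle : ∀ i ∈ (Finset.univ : Finset (ZMod n)), x (.vert i) ≤ x (.vert (i + 1)) := by
        intro i _; rw [hB i]; exact h3 i
      have hsum : ∑ i : ZMod n, x (.vert i) = ∑ i : ZMod n, x (.vert (i + 1)) :=
        (Fintype.sum_equiv (Equiv.addRight 1) _ _ fun i => rfl).symm
      have heq := (Finset.sum_eq_sum_iff_of_le hle).1 hsum j (Finset.mem_univ j)
      rcases hall j with h | h
      · exact hj h
      · exact ((c2 j).1 h).2.1 (by rw [heq, hB])
  · obtain ⟨m1, m2, m3, m4, m5, m6⟩ := mem_Tof (decide (x .bot = 0)) (decide (x .top = 1)) σ τ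
    ext j
    cases j with
    | lo => rw [t1, m1]; simp
    | hi => rw [t6, m2]; simp
    | Z i => rw [t2, m3, s0]
    | C i => rw [t5, m6, c4]
    | A i =>
      rw [t3, m4, c0, c1, c4, s2]
      constructor
      · intro h
        by_cases he : x (.edge i) = x .top
        · right; right; exact ⟨he, by rw [h, he]⟩
        · by_cases hb : x (.vert (i + 1)) = x (.edge i)
          · left; exact ⟨he, h, hb⟩
          · right; left; exact ⟨he, h, hb⟩
      · rintro (h | h | h)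
        · exact h.2.1
        · exact h.2.1
        · rw [h.1, h.2]
    | B i =>
      rw [t4, m5, c0, c2, c4, s2]
      constructor
      · intro h
        by_cases he : x (.edge i) = x .top
        · right; right; exact ⟨he, by rw [h, he]⟩
        · by_cases ha : x (.vert i) = x (.edge i)
          · left; exact ⟨he, ha, h⟩
          · right; left; exact ⟨he, ha, h⟩
      · rintro (h | h | h)
        · exact h.2.2
        · exact h.2.2
        · rw [h.1, h.2]

end Q151.CrownF
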