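import Pool.Agent.Q151.CrownF.Pat

/-!
Every good pattern is realised by a point.
-/

namespace Q151.CrownF

open Finset Pool.Agent.W304.HL

variable {n : ℕ} [NeZero n]

theorem cyc_primitive (inc : ZMod n → ℝ) (h0 : ∑ i, inc i = 0) :
    ∃ u : ZMod n → ℝ, ∀ i, u (i + 1) = u i + inc i := by
  refine ⟨fun i => ∑ j ∈ range i.val, inc (j : ZMod n), fun i => ?_⟩
  have hn : 0 < n := Nat.pos_of_ne_zero (NeZero.ne n)
  have hlt := ZMod.val_lt i
  rcases Nat.lt_or_ge (i.val + 1) n with h | h
  · have hv : (i + 1).val = i.val + 1 := by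
      rcases Nat.lt_or_ge 1 n with h1 | h1
      · have : Fact (1 < n) := ⟨h1⟩
        rw [ZMod.val_add, ZMod.val_one, Nat.mod_eq_of_lt h]
      · omega
    simp only [hv]
    rw [Finset.sum_range_succ, ZMod.natCast_zmod_val]
  · have hv : i.val + 1 = n := by omega
    have hi : i + 1 = 0 := by
      have : ((i.val + 1 : ℕ) : ZMod n) = 0 := by rw [hv]; exact ZMod.natCast_self n
      rw [Nat.cast_add, ZMod.natCast_zmod_val, Nat.cast_one] at this
      exact this
    simp only [hi, ZMod.val_zero, Finset.range_zero, Finset.sum_empty]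
    have h1 : ∑ j ∈ range n, inc (j : ZMod n) = ∑ i, inc i := by
      rw [Finset.sum_range]
      obtain ⟨m, rfl⟩ : ∃ m, n = m + 1 := ⟨n - 1, by omega⟩
      refine Fintype.sum_equiv (Equiv.refl _) _ _ fun j => ?_
      congr 1
      exact ZMod.natCast_zmod_val (n := m + 1) j
    rw [h0] at h1
    have h2 : ∑ j ∈ range (i.val + 1), inc (j : ZMod n) =
        ∑ j ∈ range i.val, inc (j : ZMod n) + inc i := by
      rw [Finset.sum_range_succ, ZMod.natCast_zmod_val]
    have h3 : ∑ j ∈ range (i.val + 1), inc (j : ZMod n) = ∑ j ∈ range n, inc (j : ZMod n) :=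
      congrArg (fun m => ∑ j ∈ range m, inc (j : ZMod n)) hv
    linarith

theorem cyc_signs (P Q E : ZMod n → Prop) (hPQ : ∀ i, ¬ (P i ∧ Q i)) (hPE : ∀ i, ¬ (P i ∧ E i))
    (hQE : ∀ i, ¬ (Q i ∧ E i))
    (h : (∃ i, ¬ P i ∧ ¬ Q i ∧ ¬ E i) ∨ ((∃ i, P i) ∧ ∃ i, Q i) ∨ ∀ i, E i) :
    ∃ u : ZMod n → ℝ, (∀ i, P i → u (i + 1) < u i) ∧ (∀ i, Q i → u i < u (i + 1)) ∧
      ∀ i, E i → u (i + 1) = u i := by
  classical
  suffices hs : ∃ inc : ZMod n → ℝ, ∑ i, inc i = 0 ∧ (∀ i, P i → inc i < 0) ∧
      (∀ i, Q i → 0 < inc i) ∧ ∀ i, E i → inc i = 0 by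
    obtain ⟨inc, h0, h1, h2, h3⟩ := hs
    obtain ⟨u, hu⟩ := cyc_primitive inc h0
    refine ⟨u, fun i hi => ?_, fun i hi => ?_, fun i hi => ?_⟩
    · rw [hu]; linarith [h1 i hi]
    · rw [hu]; linarith [h2 i hi]
    · rw [hu]; linarith [h3 i hi]
  rcases h with ⟨i0, hP0, hQ0, hE0⟩ | ⟨⟨i1, h1⟩, ⟨i2, h2⟩⟩ | h
  · refine ⟨fun i => (if Q i then 1 else 0) - (if P i then 1 else 0) -
      (if i = i0 then ∑ j, ((if Q j then (1 : ℝ) else 0) - (if P j then 1 else 0)) else 0),
      ?_, ?_, ?_, ?_⟩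
    · rw [Finset.sum_sub_distrib]
      simp
    · intro i hi
      have hne : i ≠ i0 := by rintro rfl; exact hP0 hi
      have hq : ¬ Q i := fun h => hPQ i ⟨hi, h⟩
      simp [hne, hq, hi]
    · intro i hi
      have hne : i ≠ i0 := by rintro rfl; exact hQ0 hi
      have hq : ¬ P i := fun h => hPQ i ⟨h, hi⟩
      simp [hne, hq, hi]
    · intro i hi
      have hne : i ≠ i0 := by rintro rfl; exact hE0 hi
      have hq : ¬ P i := fun h => hPE i ⟨h, hi⟩
      have hq' : ¬ Q i := fun h => hQE i ⟨h, hi⟩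
      simp [hne, hq, hq']
  · set p : ℝ := ∑ j, (if P j then (1 : ℝ) else 0) with hp
    set q : ℝ := ∑ j, (if Q j then (1 : ℝ) else 0) with hq
    have hp0 : 0 < p := by
      apply Finset.sum_pos' (fun i _ => by split_ifs <;> norm_num) ⟨i1, Finset.mem_univ _, by simp [h1]⟩
    have hq0 : 0 < q := by
      apply Finset.sum_pos' (fun i _ => by split_ifs <;> norm_num) ⟨i2, Finset.mem_univ _, by simp [h2]⟩
    refine ⟨fun i => p * (if Q i then 1 else 0) - q * (if P i then 1 else 0), ?_, ?_, ?_, ?_⟩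
    · rw [Finset.sum_sub_distrib, ← Finset.mul_sum, ← Finset.mul_sum]
      ring
    · intro i hi
      have hq : ¬ Q i := fun h => hPQ i ⟨hi, h⟩
      simp [hq, hi, hq0]
    · intro i hi
      have hq : ¬ P i := fun h => hPQ i ⟨h, hi⟩
      simp [hq, hi, hp0]
    · intro i hi
      have hq : ¬ P i := fun h => hPE i ⟨h, hi⟩
      have hq' : ¬ Q i := fun h => hQE i ⟨h, hi⟩
      simp [hq, hq']
  · refine ⟨fun _ => 0, by simp, fun i hi => absurd ⟨hi, h i⟩ (hPE i),
      fun i hi => absurd ⟨hi, h i⟩ (hQE i), fun _ _ => rfl⟩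

/-- normalised realisation -/
theorem realize {σ : ZMod n → Fin 3} {τ : ZMod n → Fin 5} (hok : ok σ τ) (hbad : ¬ bad σ τ) :
    ∃ v e : ZMod n → ℝ, (∀ i, 0 ≤ v i) ∧ (∀ i, v i ≤ e i) ∧ (∀ i, v (i + 1) ≤ e i) ∧
      (∀ i, e i ≤ 1) ∧ (∀ i, v i = 0 ↔ σ i = 0) ∧ (∀ i, v i = e i ↔ eqA (σ i) (τ i)) ∧
      (∀ i, v (i + 1) = e i ↔ eqB (τ i) (σ (i + 1))) ∧ (∀ i, e i = 1 ↔ τ i = 4) := by
  classical
  -- signs
  obtain ⟨u, hP, hQ, hE⟩ := cyc_signs (n := n)
    (fun i => σ i = 1 ∧ σ (i + 1) = 1 ∧ τ i = 1)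
    (fun i => σ i = 1 ∧ σ (i + 1) = 1 ∧ τ i = 2)
    (fun i => σ i = 1 ∧ σ (i + 1) = 1 ∧ τ i = 0)
    (by rintro i ⟨⟨_, _, h⟩, ⟨_, _, h'⟩⟩; rw [h] at h'; exact absurd h' (by decide))
    (by rintro i ⟨⟨_, _, h⟩, ⟨_, _, h'⟩⟩; rw [h] at h'; exact absurd h' (by decide))
    (by rintro i ⟨⟨_, _, h⟩, ⟨_, _, h'⟩⟩; rw [h] at h'; exact absurd h' (by decide))
    (by
      by_cases hf : ∀ i, σ i = 1
      · by_cases hstar : ∃ i, τ i ≠ 0 ∧ τ i ≠ 1 ∧ τ i ≠ 2
        · obtain ⟨i, h0, h1, h2⟩ := hstar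
          left
          exact ⟨i, fun h => h1 h.2.2, fun h => h2 h.2.2, fun h => h0 h.2.2⟩
        · push Not at hstar
          by_cases hall : ∀ i, τ i = 0
          · right; right
            intro i; exact ⟨hf i, hf _, hall i⟩
          · push Not at hall
            right; left
            have hb1 : ¬ ((∀ i, τ i = 0 ∨ τ i = 1) ∨ (∀ i, τ i = 0 ∨ τ i = 2)) :=
              fun h => hbad ⟨hf, hall, h⟩
            push Not at hb1
            obtain ⟨⟨i, hi0, hi1⟩, ⟨j, hj0, hj2⟩⟩ := hb1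
            have hi2 : τ i = 2 := hstar i hi0 hi1
            have hj1 : τ j = 1 := by
              by_contra h
              exact hj2 (hstar j hj0 h)
            exact ⟨⟨j, hf j, hf _, hj1⟩, ⟨i, hf i, hf _, hi2⟩⟩
      · push Not at hf
        obtain ⟨i, hi⟩ := hf
        left
        exact ⟨i, fun h => hi h.1, fun h => hi h.1, fun h => hi h.1⟩)
  have hs0 : ∀ t, 0 < Real.sigmoid t := Real.sigmoid_pos
  have hs1 : ∀ t, Real.sigmoid t < 1 := Real.sigmoid_lt_one
  have hsm := Real.sigmoid_strictMono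
  set v : ZMod n → ℝ := fun i => if σ i = 0 then 0 else if σ i = 1 then Real.sigmoid (u i) else 1
    with hv
  set e : ZMod n → ℝ := fun i => if τ i = 4 then 1 else if τ i = 3 then
    (max (v i) (v (i + 1)) + 1) / 2 else if τ i = 2 then v (i + 1) else v i with he
  have v0 : ∀ i, σ i = 0 → v i = 0 := fun i h => by simp [hv, h]
  have v1 : ∀ i, σ i = 1 → v i = Real.sigmoid (u i) := fun i h => by simp [hv, h]
  have v2 : ∀ i, σ i = 2 → v i = 1 := fun i h => by simp [hv, h]
  have vlt : ∀ i, σ i ≠ 2 → v i < 1 := by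
    intro i h
    have : σ i = 0 ∨ σ i = 1 := by
      revert h; generalize σ i = s; revert s; decide
    rcases this with h | h
    · rw [v0 i h]; norm_num
    · rw [v1 i h]; exact hs1 _
  have vpos : ∀ i, σ i ≠ 0 → 0 < v i := by
    intro i h
    have : σ i = 1 ∨ σ i = 2 := by
      revert h; generalize σ i = s; revert s; decide
    rcases this with h | h
    · rw [v1 i h]; exact hs0 _
    · rw [v2 i h]; norm_num
  have vnn : ∀ i, 0 ≤ v i := by
    intro i
    by_cases h : σ i = 0
    · rw [v0 i h]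
    · exact (vpos i h).le
  have vle : ∀ i, v i ≤ 1 := by
    intro i
    by_cases h : σ i = 2
    · rw [v2 i h]
    · exact (vlt i h).le
  -- facts by code
  have main : ∀ i, v i ≤ e i ∧ v (i + 1) ≤ e i ∧ e i ≤ 1 ∧ (v i = e i ↔ eqA (σ i) (τ i)) ∧
      (v (i + 1) = e i ↔ eqB (τ i) (σ (i + 1))) ∧ (e i = 1 ↔ τ i = 4) := by
    intro i
    rcases hok i with ⟨hc, hs⟩ | ⟨hc, hs, hs'⟩ | ⟨hc, hs, hs'⟩ | ⟨hc, hs, hs'⟩ | hc
    · -- code 0
      have hei : e i = v i := by simp [he, hc]
      have hvv : v (i + 1) = v i := by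
        rcases hs with ⟨h1, h2⟩ | ⟨h1, h2⟩
        · rw [v0 _ h1, v0 _ h2]
        · rw [v1 _ h1, v1 _ h2, hE i ⟨h1, h2, hc⟩]
      have hlt : v i < 1 := vlt i (by rcases hs with ⟨h1, _⟩ | ⟨h1, _⟩ <;> rw [h1] <;> decide)
      refine ⟨hei.ge, by rw [hei, hvv], by rw [hei]; exact hlt.le, ?_, ?_, ?_⟩
      · rw [hei]; simp [eqA, hc]
      · rw [hei, hvv]; simp [eqB, hc]
      · rw [hei, hc]
        constructor
        · intro h; exact absurd h hlt.ne
        · intro h; exact absurd h (by decide)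
    · -- code 1
      have hei : e i = v i := by simp [he, hc]
      have hlt : v i < 1 := vlt i (by rw [hs]; decide)
      have hvv : v (i + 1) < v i := by
        have : σ (i + 1) = 0 ∨ σ (i + 1) = 1 := by
          revert hs'; generalize σ (i + 1) = s; revert s; decide
        rcases this with h | h
        · rw [v0 _ h]; exact vpos i (by rw [hs]; decide)
        · rw [v1 _ h, v1 _ hs]; exact hsm (hP i ⟨hs, h, hc⟩)
      refine ⟨hei.ge, by rw [hei]; exact hvv.le, by rw [hei]; exact hlt.le, ?_, ?_, ?_⟩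
      · rw [hei]; simp [eqA, hc]
      · rw [hei]
        constructor
        · intro h; exact absurd h hvv.ne
        · intro h; simp [eqB, hc] at h
      · rw [hei, hc]
        constructor
        · intro h; exact absurd h hlt.ne
        · intro h; exact absurd h (by decide)
    · -- code 2
      have hei : e i = v (i + 1) := by simp [he, hc]
      have hlt : v (i + 1) < 1 := vlt _ (by rw [hs']; decide)
      have hvv : v i < v (i + 1) := by
        have : σ i = 0 ∨ σ i = 1 := by
          revert hs; generalize σ i = s; revert s; decide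
        rcases this with h | h
        · rw [v0 _ h]; exact vpos _ (by rw [hs']; decide)
        · rw [v1 _ h, v1 _ hs']; exact hsm (hQ i ⟨h, hs', hc⟩)
      refine ⟨by rw [hei]; exact hvv.le, hei.ge, by rw [hei]; exact hlt.le, ?_, ?_, ?_⟩
      · rw [hei]
        constructor
        · intro h; exact absurd h hvv.ne
        · intro h; simp [eqA, hc] at h
      · rw [hei]; simp [eqB, hc]
      · rw [hei, hc]
        constructor
        · intro h; exact absurd h hlt.ne
        · intro h; exact absurd h (by decide)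
    · -- code 3
      have hei : e i = (max (v i) (v (i + 1)) + 1) / 2 := by simp [he, hc]
      have hm : max (v i) (v (i + 1)) < 1 := max_lt (vlt i hs) (vlt _ hs')
      have l1 := le_max_left (v i) (v (i + 1))
      have l2 := le_max_right (v i) (v (i + 1))
      have g1 : v i < e i := by rw [hei]; linarith
      have g2 : v (i + 1) < e i := by rw [hei]; linarith
      have g3 : e i < 1 := by rw [hei]; linarith
      refine ⟨g1.le, g2.le, g3.le, ?_, ?_, ?_⟩
      · constructor
        · intro h; exact absurd h g1.ne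
        · intro h; simp [eqA, hc] at h
      · constructor
        · intro h; exact absurd h g2.ne
        · intro h; simp [eqB, hc] at h
      · rw [hc]
        constructor
        · intro h; exact absurd h g3.ne
        · intro h; exact absurd h (by decide)
    · -- code 4
      have hei : e i = 1 := by simp [he, hc]
      refine ⟨by rw [hei]; exact vle i, by rw [hei]; exact vle _, hei.le, ?_, ?_, by simp [hei, hc]⟩
      · rw [hei]
        constructor
        · intro h
          right; right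
          refine ⟨hc, ?_⟩
          by_contra h'
          exact absurd h (vlt i h').ne
        · rintro (h | h | h)
          · rw [hc] at h; exact absurd h (by decide)
          · rw [hc] at h; exact absurd h (by decide)
          · exact v2 i h.2
      · rw [hei]
        constructor
        · intro h
          right; right
          refine ⟨hc, ?_⟩
          by_contra h'
          exact absurd h (vlt _ h').ne
        · rintro (h | h | h)
          · rw [hc] at h; exact absurd h (by decide)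
          · rw [hc] at h; exact absurd h (by decide)
          · exact v2 _ h.2
  refine ⟨v, e, vnn, fun i => (main i).1, fun i => (main i).2.1, fun i => (main i).2.2.1, ?_,
    fun i => (main i).2.2.2.1, fun i => (main i).2.2.2.2.1, fun i => (main i).2.2.2.2.2⟩
  intro i
  constructor
  · intro h
    by_contra h'
    exact absurd h (vpos i h').ne'
  · exact v0 i

/-- Every good pattern with every choice of flags is the tight set of a point. -/
theorem realize_T (lo hi : Bool) {σ : ZMod n → Fin 3} {τ : ZMod n → Fin 5} (hok : ok σ τ)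
    (hbad : ¬ bad σ τ) :
    ∃ x ∈ poly (cf n) (df n), tight (cf n) (df n) x = Tof lo hi σ τ := by
  obtain ⟨v, e, h1, h2, h3, h4, h5, h6, h7, h8⟩ := realize hok hbad
  -- bottom and top values
  obtain ⟨b, hb0, hb1, hb2⟩ : ∃ b : ℝ, 0 ≤ b ∧ b ≤ 1 / 4 ∧ (b = 0 ↔ lo = true) := by
    cases lo
    · exact ⟨1 / 4, by norm_num, le_rfl, by norm_num⟩
    · exact ⟨0, le_rfl, by norm_num, by simp⟩
  obtain ⟨t, ht0, ht1, ht2⟩ : ∃ t : ℝ, t ≤ 1 ∧ 3 / 4 ≤ t ∧ (t = 1 ↔ hi = true) := by
    cases hi
    · exact ⟨3 / 4, by norm_num, le_rfl, by norm_num⟩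
    · exact ⟨1, le_rfl, by norm_num, by simp⟩
  have hd : 0 < t - b := by linarith
  set x : Face n → ℝ := fun a => match a with
    | .bot => b
    | .vert i => b + (t - b) * v i
    | .edge i => b + (t - b) * e i
    | .top => t with hx
  have xb : x .bot = b := rfl
  have xt : x .top = t := rfl
  have xv : ∀ i, x (.vert i) = b + (t - b) * v i := fun i => rfl
  have xe : ∀ i, x (.edge i) = b + (t - b) * e i := fun i => rfl
  have hxp : x ∈ poly (cf n) (df n) := by
    rw [mem_poly]
    refine ⟨hb0, fun i => ?_, fun i => ?_, fun i => ?_, fun i => ?_, ht0⟩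
    · rw [xb, xv]; nlinarith [h1 i, mul_nonneg hd.le (h1 i)]
    · rw [xv, xe]; nlinarith [mul_le_mul_of_nonneg_left (h2 i) hd.le]
    · rw [xv, xe]; nlinarith [mul_le_mul_of_nonneg_left (h3 i) hd.le]
    · rw [xe, xt]; nlinarith [mul_le_mul_of_nonneg_left (h4 i) hd.le]
  refine ⟨x, hxp, ?_⟩
  obtain ⟨t1, t2, t3, t4, t5, t6⟩ := mem_tight x
  obtain ⟨m1, m2, m3, m4, m5, m6⟩ := mem_Tof lo hi σ τ
  ext j
  cases j with
  | lo => rw [t1, m1, xb, hb2]
  | hi => rw [t6, m2, xt, ht2]
  | Z i =>
    rw [t2, m3, xb, xv, ← h5]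
    constructor
    · intro h
      have : (t - b) * v i = 0 := by linarith
      rcases mul_eq_zero.1 this with h' | h'
      · exact absurd h' hd.ne'
      · exact h'
    · intro h; rw [h]; ring
  | A i =>
    rw [t3, m4, xv, xe]
    rw [show (τ i = 0 ∨ τ i = 1 ∨ (τ i = 4 ∧ σ i = 2)) ↔ eqA (σ i) (τ i) from Iff.rfl, ← h6]
    constructor
    · intro h
      have : (t - b) * v i = (t - b) * e i := by linarith
      exact mul_left_cancel₀ hd.ne' this
    · intro h; rw [h]
  | B i =>
    rw [t4, m5, xv, xe]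
    rw [show (τ i = 0 ∨ τ i = 2 ∨ (τ i = 4 ∧ σ (i + 1) = 2)) ↔ eqB (τ i) (σ (i + 1)) from Iff.rfl,
      ← h7]
    constructor
    · intro h
      have : (t - b) * v (i + 1) = (t - b) * e i := by linarith
      exact mul_left_cancel₀ hd.ne' this
    · intro h; rw [h]
  | C i =>
    rw [t5, m6, xe, xt, ← h8]
    constructor
    · intro h
      have : (t - b) * e i = (t - b) * 1 := by linarith
      exact mul_left_cancel₀ hd.ne' this
    · intro h; rw [h]; ring

end Q151.CrownF
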